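import Pool.Agent.H513R2.RD.S.COVA

namespace RD
open Finset RC14 Filter

/-- second moment: for a set `E` of even permutations of density at least `p`, one of
`u, u y, u y², …, u y^(J-1)` lies in `E` with probability at least `1 - 2 / (p J)` -/
theorem COV (J : ℕ) (hJ : 1 ≤ J) : ∀ᶠ n : ℕ in atTop, ∀ (E : Alt n → Prop) (p : ℝ), 0 < p →
    p * Fintype.card (Alt n) ≤ Nat.card {g : Alt n // E g} →
    (Nat.card {z : Alt n × Alt n // ∀ j < J, ¬ E (z.1 * z.2 ^ j)} : ℝ) ≤
      2 / (p * J) * (Fintype.card (Alt n) : ℝ) ^ 2 := by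
  have hJ0 : (0 : ℝ) < J := by exact_mod_cast hJ
  have hev : ∀ᶠ n : ℕ in atTop, ∀ d ∈ Finset.Ico 1 J, ∀ f : Alt n → ℝ, ∑ v, f v = 0 →
      ∑ y : Alt n, ∑ v, f v * f (v * y ^ d) ≤ (1 / J : ℝ) * Fintype.card (Alt n) *
        ∑ v, f v ^ 2 := by
    rw [Filter.eventually_all_finset]
    intro d hd
    exact COVA d (Finset.mem_Ico.mp hd).1 (1 / J) (by positivity)
  filter_upwards [hev] with n hn E p hp hE
  classical
  set A : ℝ := (Fintype.card (Alt n) : ℝ) with hA
  have hA0 : 0 < A := by rw [hA]; exact_mod_cast Fintype.card_pos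
  set q : ℝ := (Nat.card {g : Alt n // E g} : ℝ) / A with hq
  have hqA : q * A = Nat.card {g : Alt n // E g} := by rw [hq]; field_simp
  have hpq : p ≤ q := by rw [hq, le_div_iff₀ hA0]; exact hE
  have hq0 : 0 < q := hp.trans_le hpq
  let e : Alt n → ℝ := fun v => if E v then 1 else 0
  let f : Alt n → ℝ := fun v => e v - q
  have hesum : ∑ v, e v = q * A := by
    rw [hqA, Nat.card_eq_fintype_card, Fintype.card_subtype]
    simp [e]
  have hf0 : ∑ v, f v = 0 := by
    simp only [f]
    rw [Finset.sum_sub_distrib, hesum, Finset.sum_const, Finset.card_univ, nsmul_eq_mul, ← hA]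
    ring
  have hf2 : ∑ v, f v ^ 2 ≤ q * A := by
    have h1 : ∀ v, f v ^ 2 = e v - 2 * q * e v + q ^ 2 := by
      intro v
      simp only [f, e]
      split_ifs <;> ring
    rw [Finset.sum_congr rfl fun v _ => h1 v, Finset.sum_add_distrib, Finset.sum_sub_distrib,
      ← Finset.mul_sum, hesum, Finset.sum_const, Finset.card_univ, nsmul_eq_mul, ← hA]
    have : 0 ≤ q ^ 2 * A := by positivity
    nlinarith
  have hcorr : ∀ i j : ℕ, i < J → j < J → i < j →
      ∑ y : Alt n, ∑ u, f (u * y ^ i) * f (u * y ^ j) ≤ (1 / J : ℝ) * A * (q * A) := by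
    intro i j _ hj hij
    have h1 : ∀ y : Alt n, ∑ u, f (u * y ^ i) * f (u * y ^ j) =
        ∑ v, f v * f (v * y ^ (j - i)) := by
      intro y
      refine Fintype.sum_equiv (Equiv.mulRight (y ^ i)) _ _ fun u => ?_
      simp only [Equiv.coe_mulRight]
      rw [mul_assoc u (y ^ i), ← pow_add, Nat.add_sub_cancel' hij.le]
    rw [Finset.sum_congr rfl fun y _ => h1 y]
    refine (hn (j - i) (Finset.mem_Ico.mpr ⟨by omega, by omega⟩) f hf0).trans ?_
    gcongr
  have hdiag : ∀ i : ℕ, ∑ y : Alt n, ∑ u, f (u * y ^ i) * f (u * y ^ i) ≤ A * (q * A) := by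
    intro i
    have h1 : ∀ y : Alt n, ∑ u, f (u * y ^ i) * f (u * y ^ i) = ∑ v, f v ^ 2 := by
      intro y
      refine Fintype.sum_equiv (Equiv.mulRight (y ^ i)) _ _ fun u => ?_
      simp only [Equiv.coe_mulRight]
      ring
    rw [Finset.sum_congr rfl fun y _ => h1 y, Finset.sum_const, Finset.card_univ, nsmul_eq_mul,
      ← hA]
    gcongr
  -- second moment
  have hsq : ∑ z : Alt n × Alt n, (∑ j ∈ range J, f (z.1 * z.2 ^ j)) ^ 2 ≤
      2 * J * (A * (q * A)) := by
    have h1 : ∑ z : Alt n × Alt n, (∑ j ∈ range J, f (z.1 * z.2 ^ j)) ^ 2 =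
        ∑ i ∈ range J, ∑ j ∈ range J,
          ∑ y : Alt n, ∑ u, f (u * y ^ i) * f (u * y ^ j) := by
      rw [Fintype.sum_prod_type_right]
      have h2 : ∀ y u : Alt n, (∑ j ∈ range J, f (u * y ^ j)) ^ 2 =
          ∑ i ∈ range J, ∑ j ∈ range J, f (u * y ^ i) * f (u * y ^ j) := by
        intro y u
        rw [sq, Finset.sum_mul_sum]
      simp only [h2]
      have h3 : ∀ y : Alt n, ∑ u, ∑ i ∈ range J, ∑ j ∈ range J, f (u * y ^ i) * f (u * y ^ j) =
          ∑ i ∈ range J, ∑ j ∈ range J, ∑ u, f (u * y ^ i) * f (u * y ^ j) := by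
        intro y
        rw [Finset.sum_comm]
        exact Finset.sum_congr rfl fun i _ => Finset.sum_comm
      simp only [h3]
      rw [Finset.sum_comm]
      exact Finset.sum_congr rfl fun i _ => Finset.sum_comm
    rw [h1]
    have h4 : ∀ i ∈ range J, ∀ j ∈ range J,
        ∑ y : Alt n, ∑ u, f (u * y ^ i) * f (u * y ^ j) ≤
          (1 / J : ℝ) * A * (q * A) + if i = j then A * (q * A) else 0 := by
      intro i hi j hj
      rw [Finset.mem_range] at hi hj
      rcases lt_trichotomy i j with h | h | h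
      · rw [if_neg (by omega), add_zero]
        exact hcorr i j hi hj h
      · subst h
        rw [if_pos rfl]
        have := hdiag i
        have h5 : 0 ≤ (1 / J : ℝ) * A * (q * A) := by positivity
        linarith
      · rw [if_neg (by omega), add_zero]
        have := hcorr j i hj hi h
        simpa only [mul_comm] using this
    calc ∑ i ∈ range J, ∑ j ∈ range J, ∑ y : Alt n, ∑ u, f (u * y ^ i) * f (u * y ^ j)
        ≤ ∑ i ∈ range J, ∑ j ∈ range J,
          ((1 / J : ℝ) * A * (q * A) + if i = j then A * (q * A) else 0) :=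
          Finset.sum_le_sum fun i hi => Finset.sum_le_sum fun j hj => h4 i hi j hj
      _ = 2 * J * (A * (q * A)) := by
          have h6 : ∀ i ∈ range J, ∑ j ∈ range J,
              ((1 / J : ℝ) * A * (q * A) + if i = j then A * (q * A) else 0) =
              J * ((1 / J : ℝ) * A * (q * A)) + A * (q * A) := by
            intro i hi
            rw [Finset.sum_add_distrib, Finset.sum_ite_eq, if_pos hi, Finset.sum_const,
              Finset.card_range, nsmul_eq_mul]
          rw [Finset.sum_congr rfl h6, Finset.sum_const, Finset.card_range, nsmul_eq_mul]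
          field_simp
          ring
  -- bad set
  set B : Finset (Alt n × Alt n) := {z | ∀ j < J, ¬ E (z.1 * z.2 ^ j)} with hB
  have hcardB : (Nat.card {z : Alt n × Alt n // ∀ j < J, ¬ E (z.1 * z.2 ^ j)} : ℝ) = #B := by
    rw [Nat.card_eq_fintype_card, Fintype.card_subtype]
  have hBsum : (#B : ℝ) * (J * q) ^ 2 ≤ 2 * J * (A * (q * A)) := by
    refine le_trans ?_ hsq
    calc (#B : ℝ) * (J * q) ^ 2 = ∑ z ∈ B, (∑ j ∈ range J, f (z.1 * z.2 ^ j)) ^ 2 := by
          rw [← nsmul_eq_mul, ← Finset.sum_const]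
          refine Finset.sum_congr rfl fun z hz => ?_
          have h7 : ∀ j ∈ range J, f (z.1 * z.2 ^ j) = - q := by
            intro j hj
            have h8 := (Finset.mem_filter.mp hz).2 j (Finset.mem_range.mp hj)
            simp only [f, e, if_neg h8]
            ring
          rw [Finset.sum_congr rfl h7, Finset.sum_const, Finset.card_range, nsmul_eq_mul]
          ring
      _ ≤ ∑ z : Alt n × Alt n, (∑ j ∈ range J, f (z.1 * z.2 ^ j)) ^ 2 :=
          Finset.sum_le_univ_sum_of_nonneg fun z => sq_nonneg _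
  rw [hcardB]
  have hJq : 0 < J * q := by positivity
  have h9 : (#B : ℝ) ≤ 2 / (q * J) * A ^ 2 := by
    rw [div_mul_eq_mul_div, le_div_iff₀ (by positivity)]
    have h10 : (#B : ℝ) * (q * J) * (J * q) ≤ 2 * A ^ 2 * (J * q) := by
      calc (#B : ℝ) * (q * J) * (J * q) = (#B : ℝ) * (J * q) ^ 2 := by ring
        _ ≤ 2 * J * (A * (q * A)) := hBsum
        _ = 2 * A ^ 2 * (J * q) := by ring
    exact le_of_mul_le_mul_right h10 hJq
  refine h9.trans ?_
  gcongr

end RD
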