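import Pool.Agent.H513R2.RD.S.LCYC

namespace RD
open Finset RC14 Filter

/-- the divisors of `l` that are larger than `l / 800` -/
lemma LONG_div (l m : ℕ) (hl : 0 < l) (h : l ≤ 400 * m) :
    ((Icc (m / 2 + 1) (m - 2)).filter (fun d => d ∣ l)).card ≤ 800 := by
  calc ((Icc (m / 2 + 1) (m - 2)).filter (fun d => d ∣ l)).card
      = (((Icc (m / 2 + 1) (m - 2)).filter (fun d => d ∣ l)).image (fun d => l / d)).card := by
        rw [Finset.card_image_of_injOn]
        intro d hd d' hd' he
        simp only [Finset.coe_filter, Finset.mem_Icc, Set.mem_ofPred_eq] at hd hd'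
        simp only at he
        obtain ⟨⟨h1, -⟩, c, hc⟩ := hd
        obtain ⟨⟨h1', -⟩, c', hc'⟩ := hd'
        have e1 : l / d = c := by rw [hc]; exact Nat.mul_div_cancel_left c (by omega)
        have e2 : l / d' = c' := by rw [hc']; exact Nat.mul_div_cancel_left c' (by omega)
        rw [e1, e2] at he
        have hcpos : 0 < c := by
          rcases Nat.eq_zero_or_pos c with h0 | h0
          · rw [h0, mul_zero] at hc
            omega
          · exact h0
        have : d * c = d' * c := by rw [← hc]; rw [he]; exact hc'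
        exact Nat.eq_of_mul_eq_mul_right hcpos this
    _ ≤ (range 800).card := by
        refine Finset.card_le_card ?_
        intro x hx
        rw [Finset.mem_image] at hx
        obtain ⟨d, hd, rfl⟩ := hx
        rw [Finset.mem_filter, Finset.mem_Icc] at hd
        rw [Finset.mem_range, Nat.div_lt_iff_lt_mul (by omega)]
        omega
    _ = 800 := Finset.card_range _

/-- many admissible values of `d` -/
lemma LONG_cnt (n m : ℕ) (hn : 10 ^ 7 ≤ n) (h1 : n / 400 + 1 ≤ m) (h2 : m ≤ n / 192) :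
    n / 1000 ≤ ((Icc (m / 2 + 1) (m - 2)).filter (fun d => ¬ d ∣ n - m)).card := by
  have h3 := LONG_div (n - m) m (by omega) (by omega)
  have h4 := Finset.card_filter_add_card_filter_not (s := Icc (m / 2 + 1) (m - 2))
    (fun d => d ∣ n - m)
  rw [Nat.card_Icc] at h4
  omega

/-- the indices `(m, d)`: cycle lengths `n - m` and `d` -/
def LONG_I (n : ℕ) : Finset (Σ _ : ℕ, ℕ) :=
  (Icc (n / 400 + 1) (n / 192)).sigma
    (fun m => (Icc (m / 2 + 1) (m - 2)).filter (fun d => ¬ d ∣ n - m))

lemma LONG_card_I (n : ℕ) (hn : 10 ^ 7 ≤ n) : n * (n - 1) ≤ 10 ^ 7 * (LONG_I n).card := by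
  unfold LONG_I
  rw [Finset.card_sigma]
  have h1 : (n / 500) * (n / 1000) ≤ ∑ m ∈ Icc (n / 400 + 1) (n / 192),
      ((Icc (m / 2 + 1) (m - 2)).filter (fun d => ¬ d ∣ n - m)).card := by
    calc (n / 500) * (n / 1000) ≤ (Icc (n / 400 + 1) (n / 192)).card * (n / 1000) := by
          refine Nat.mul_le_mul_right _ ?_
          rw [Nat.card_Icc]
          omega
      _ = ∑ _m ∈ Icc (n / 400 + 1) (n / 192), n / 1000 := by
          rw [Finset.sum_const, smul_eq_mul]
      _ ≤ _ := Finset.sum_le_sum fun m hm => by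
          rw [Finset.mem_Icc] at hm
          exact LONG_cnt n m hn hm.1 hm.2
  refine le_trans ?_ (Nat.mul_le_mul_left _ h1)
  have h2 : n ≤ 1000 * (n / 500) := by omega
  have h3 : n ≤ 2000 * (n / 1000) := by omega
  calc n * (n - 1) ≤ n * n := Nat.mul_le_mul_left _ (by omega)
    _ ≤ (1000 * (n / 500)) * (2000 * (n / 1000)) := Nat.mul_le_mul h2 h3
    _ = (1000 * 2000) * ((n / 500) * (n / 1000)) := by ring
    _ ≤ 10 ^ 7 * ((n / 500) * (n / 1000)) := Nat.mul_le_mul_right _ (by norm_num)

lemma LONG_fix {n : ℕ} (p : Equiv.Perm (Fin n)) (a b : Fin n) (l d : ℕ) (hl : 0 < l)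
    (hla : Function.minimalPeriod p a = l) (hdb : Function.minimalPeriod p b = d)
    (hdl : ¬ d ∣ l) : d ≤ (p ^ l).support.card ∧ (p ^ l).support.card + l ≤ n := by
  classical
  have hpa : (p ^ l) a = a := by
    have h := Function.isPeriodicPt_minimalPeriod p a
    rw [hla] at h
    have h2 : p^[l] a = a := h
    rwa [Equiv.Perm.iterate_eq_pow] at h2
  have hpb : (p ^ l) b ≠ b := by
    intro h
    apply hdl
    rw [← hdb]
    apply Function.IsPeriodicPt.minimalPeriod_dvd
    change p^[l] b = b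
    rw [Equiv.Perm.iterate_eq_pow]
    exact h
  have hcomm : ∀ (i : ℕ) (x : Fin n), (p ^ l) ((p ^ i) x) = (p ^ i) ((p ^ l) x) := by
    intro i x
    rw [← Equiv.Perm.mul_apply, ← Equiv.Perm.mul_apply, ← pow_add, ← pow_add, add_comm]
  constructor
  · have hinj : Set.InjOn (fun i : ℕ => (p ^ i) b) (range d : Finset ℕ) := by
      have h := Function.iterate_injOn_Iio_minimalPeriod (f := p) (x := b)
      rw [hdb] at h
      intro i hi j hj hij
      rw [Finset.coe_range] at hi hj
      apply h hi hj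
      simp only [Equiv.Perm.iterate_eq_pow]
      exact hij
    calc d = ((range d).image (fun i : ℕ => (p ^ i) b)).card := by
          rw [Finset.card_image_of_injOn hinj, Finset.card_range]
      _ ≤ (p ^ l).support.card := by
          refine Finset.card_le_card ?_
          intro x hx
          rw [Finset.mem_image] at hx
          obtain ⟨i, -, rfl⟩ := hx
          rw [Equiv.Perm.mem_support, hcomm]
          intro h
          exact hpb ((p ^ i).injective h)
  · have hinj : Set.InjOn (fun i : ℕ => (p ^ i) a) (range l : Finset ℕ) := by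
      have h := Function.iterate_injOn_Iio_minimalPeriod (f := p) (x := a)
      rw [hla] at h
      intro i hi j hj hij
      rw [Finset.coe_range] at hi hj
      apply h hi hj
      simp only [Equiv.Perm.iterate_eq_pow]
      exact hij
    have hdisj : Disjoint (p ^ l).support ((range l).image (fun i : ℕ => (p ^ i) a)) := by
      rw [Finset.disjoint_right]
      intro x hx
      rw [Finset.mem_image] at hx
      obtain ⟨i, -, rfl⟩ := hx
      rw [Equiv.Perm.mem_support, hcomm, hpa]
      simp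
    have h := Finset.card_le_univ ((p ^ l).support ∪ (range l).image (fun i : ℕ => (p ^ i) a))
    rw [Finset.card_union_of_disjoint hdisj, Finset.card_image_of_injOn hinj, Finset.card_range,
      Fintype.card_fin] at h
    exact h

/-- a positive proportion of the even permutations have a power `g ^ e`, `e ≤ n`, which moves at
least `n / 1000` and at most `n / 192` points -/
theorem LONG : ∀ᶠ n : ℕ in atTop, (Fintype.card (Alt n) : ℝ) ≤
    10 ^ 7 * Nat.card {g : Alt n // ∃ e, 1 ≤ e ∧ e ≤ n ∧ n ≤ 1000 * sz (g ^ e) ∧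
      192 * sz (g ^ e) ≤ n} := by
  classical
  filter_upwards [eventually_ge_atTop (10 ^ 7)] with n hn
  have hn2 : 2 ≤ n := le_trans (by norm_num) hn
  set a : Fin n := ⟨0, by omega⟩ with ha
  set b : Fin n := ⟨1, by omega⟩ with hb
  have hab : a ≠ b := by
    intro h
    have := congrArg Fin.val h
    simp [ha, hb] at this
  set E : (Σ _ : ℕ, ℕ) → Finset (Alt n) := fun q => univ.filter fun g : Alt n =>
      Function.minimalPeriod (g : Equiv.Perm (Fin n)) a = n - q.1 ∧
      Function.minimalPeriod (g : Equiv.Perm (Fin n)) b = q.2 ∧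
      ∀ i : ℕ, ((g : Equiv.Perm (Fin n)) ^ i) a ≠ b with hE
  set Gd : Finset (Alt n) := univ.filter fun g : Alt n => ∃ e, 1 ≤ e ∧ e ≤ n ∧
      n ≤ 1000 * sz (g ^ e) ∧ 192 * sz (g ^ e) ≤ n with hGd
  have hmem : ∀ q ∈ LONG_I n, n / 400 + 1 ≤ q.1 ∧ q.1 ≤ n / 192 ∧ q.1 / 2 + 1 ≤ q.2 ∧
      q.2 ≤ q.1 - 2 ∧ ¬ q.2 ∣ n - q.1 := by
    intro q hq
    unfold LONG_I at hq
    rw [Finset.mem_sigma, Finset.mem_Icc, Finset.mem_filter, Finset.mem_Icc] at hq
    exact ⟨hq.1.1, hq.1.2, hq.2.1.1, hq.2.1.2, hq.2.2⟩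
  have hcardE : ∀ q ∈ LONG_I n, Fintype.card (Alt n) ≤ n * (n - 1) * (E q).card := by
    intro q hq
    obtain ⟨h1, h2, h3, h4, h5⟩ := hmem q hq
    have h := LCYC n (n - q.1) q.2 (by omega) (by omega) (by omega) a b hab
    have hh : Nat.card {g : Alt n //
        Function.minimalPeriod (g : Equiv.Perm (Fin n)) a = n - q.1 ∧
        Function.minimalPeriod (g : Equiv.Perm (Fin n)) b = q.2 ∧
        ∀ i : ℕ, ((g : Equiv.Perm (Fin n)) ^ i) a ≠ b} = (E q).card := by
      rw [Nat.card_eq_fintype_card, Fintype.card_subtype]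
    rw [hh] at h
    exact h
  have hsub : ∀ q ∈ LONG_I n, E q ⊆ Gd := by
    intro q hq g hg
    obtain ⟨h1, h2, h3, h4, h5⟩ := hmem q hq
    rw [hE] at hg
    simp only [Finset.mem_filter, Finset.mem_univ, true_and] at hg
    obtain ⟨g1, g2, -⟩ := hg
    have h6 := LONG_fix (g : Equiv.Perm (Fin n)) a b (n - q.1) q.2 (by omega) g1 g2 h5
    rw [hGd]
    simp only [Finset.mem_filter, Finset.mem_univ, true_and]
    have h7 : sz (g ^ (n - q.1)) = ((g : Equiv.Perm (Fin n)) ^ (n - q.1)).support.card := by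
      unfold sz
      rw [Subgroup.coe_pow]
    refine ⟨n - q.1, by omega, by omega, ?_, ?_⟩
    · rw [h7]
      omega
    · rw [h7]
      omega
  have hdisj : Set.PairwiseDisjoint (LONG_I n : Set (Σ _ : ℕ, ℕ)) E := by
    intro q hq q' hq' hne
    change Disjoint (E q) (E q')
    rw [Finset.disjoint_left]
    intro g hg hg'
    apply hne
    obtain ⟨h1, h2, h3, h4, h5⟩ := hmem q hq
    obtain ⟨h1', h2', h3', h4', h5'⟩ := hmem q' hq'
    rw [hE] at hg hg'
    simp only [Finset.mem_filter, Finset.mem_univ, true_and] at hg hg'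
    obtain ⟨g1, g2, -⟩ := hg
    obtain ⟨g1', g2', -⟩ := hg'
    have e1 : q.1 = q'.1 := by omega
    have e2 : q.2 = q'.2 := by omega
    exact Sigma.ext e1 (heq_of_eq e2)
  have h8 : ∑ q ∈ LONG_I n, (E q).card ≤ Gd.card := by
    rw [← Finset.card_biUnion (fun q hq q' hq' hne => hdisj hq hq' hne)]
    refine Finset.card_le_card ?_
    intro g hg
    rw [Finset.mem_biUnion] at hg
    obtain ⟨q, hq, hg⟩ := hg
    exact hsub q hq hg
  have h9 : Fintype.card (Alt n) * (LONG_I n).card ≤ n * (n - 1) * Gd.card := by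
    calc Fintype.card (Alt n) * (LONG_I n).card = ∑ _q ∈ LONG_I n, Fintype.card (Alt n) := by
          rw [Finset.sum_const, smul_eq_mul, mul_comm]
      _ ≤ ∑ q ∈ LONG_I n, n * (n - 1) * (E q).card := Finset.sum_le_sum hcardE
      _ = n * (n - 1) * ∑ q ∈ LONG_I n, (E q).card := by rw [Finset.mul_sum]
      _ ≤ _ := Nat.mul_le_mul_left _ h8
  have h10 := LONG_card_I n hn
  have h11 : 0 < n * (n - 1) := Nat.mul_pos (by omega) (by omega)
  have h12 : Fintype.card (Alt n) ≤ 10 ^ 7 * Gd.card := by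
    have h13 : (n * (n - 1)) * Fintype.card (Alt n) ≤ (n * (n - 1)) * (10 ^ 7 * Gd.card) := by
      calc (n * (n - 1)) * Fintype.card (Alt n) ≤
            (10 ^ 7 * (LONG_I n).card) * Fintype.card (Alt n) := Nat.mul_le_mul_right _ h10
        _ = 10 ^ 7 * (Fintype.card (Alt n) * (LONG_I n).card) := by ring
        _ ≤ 10 ^ 7 * (n * (n - 1) * Gd.card) := Nat.mul_le_mul_left _ h9
        _ = (n * (n - 1)) * (10 ^ 7 * Gd.card) := by ring
    exact Nat.le_of_mul_le_mul_left h13 h11
  have h14 : Nat.card {g : Alt n // ∃ e, 1 ≤ e ∧ e ≤ n ∧ n ≤ 1000 * sz (g ^ e) ∧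
      192 * sz (g ^ e) ≤ n} = Gd.card := by
    rw [Nat.card_eq_fintype_card, Fintype.card_subtype]
  rw [h14]
  exact_mod_cast h12

end RD
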