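import Pool.Agent.H513R2.RD.S.MIXA

namespace RD
open Finset RC14

/-- the letters of the lazy walk -/
def MIX_let {n k : ℕ} (x : Fin k → Alt n) (c : Bool × Fin k × Bool) : Alt n :=
  if c.1 then (if c.2.2 then x c.2.1 else (x c.2.1)⁻¹) else 1

theorem MIX_let_WL {n k : ℕ} (x : Fin k → Alt n) (c : Bool × Fin k × Bool) :
    WL x 1 (MIX_let x c) := by
  unfold MIX_let
  split_ifs
  · exact WL.gen _
  · exact (WL.gen _).inv
  · exact WL.one _

theorem MIX_lz {n k r : ℕ} (hk : 1 ≤ k) (x : Fin k → Alt n) (D : Tup r n → ℝ) (b : Tup r n) :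
    ∑ c : Bool × Fin k × Bool, D (mv ((MIX_let x c : Alt n) : Equiv.Perm (Fin n))⁻¹ b) =
      4 * k * lz (fun i => mvE (x i : Equiv.Perm (Fin n))) D b := by
  have hk0 : (k : ℝ) ≠ 0 := by
    have : k ≠ 0 := by omega
    exact_mod_cast this
  rw [Fintype.sum_prod_type]
  simp_rw [Fintype.sum_prod_type, Fintype.sum_bool]
  unfold lz MIX_let
  simp only [if_true, Bool.false_eq_true, if_false, OneMemClass.coe_one, inv_one, mv_one,
    Subgroup.coe_inv, inv_inv]
  have h1 : ∀ i, (mvE (x i : Equiv.Perm (Fin n)) : Equiv.Perm (Tup r n)) b =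
      mv (x i : Equiv.Perm (Fin n)) b := fun _ => rfl
  have h2 : ∀ i, (mvE (x i : Equiv.Perm (Fin n)) : Equiv.Perm (Tup r n))⁻¹ b =
      mv (x i : Equiv.Perm (Fin n))⁻¹ b := fun _ => rfl
  simp_rw [h1, h2]
  rw [Finset.sum_const, Finset.card_univ, Fintype.card_fin, nsmul_eq_mul]
  have h3 : ∑ i, (D (mv (x i : Equiv.Perm (Fin n))⁻¹ b) + D (mv (x i : Equiv.Perm (Fin n)) b)) =
      ∑ i, (D (mv (x i : Equiv.Perm (Fin n)) b) + D (mv (x i : Equiv.Perm (Fin n))⁻¹ b)) :=
    Finset.sum_congr rfl fun i _ => add_comm _ _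
  rw [h3]
  field_simp
  ring

theorem MIX_fam {n k : ℕ} (hk : 1 ≤ k) (x : Fin k → Alt n) (t : ℕ) :
    ∃ (Ω : Type) (_ : Fintype Ω) (h : Ω → Alt n), (∀ ω, WL x t (h ω)) ∧
      Fintype.card Ω = (4 * k) ^ t ∧ ∀ (r : ℕ) (a b : Tup r n),
        (#{ω | mv (h ω : Equiv.Perm (Fin n)) a = b} : ℝ) =
          (4 * k) ^ t * ((lz (fun i => mvE (x i : Equiv.Perm (Fin n))))^[t]
            (fun c => if c = a then 1 else 0)) b := by
  classical
  induction t with
  | zero =>
    refine ⟨Unit, inferInstance, fun _ => 1, fun _ => WL.one _, by simp, fun r a b => ?_⟩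
    rw [pow_zero, one_mul, Function.iterate_zero, id]
    by_cases hba : b = a
    · rw [if_pos hba, hba]
      simp
    · rw [if_neg hba]
      have : ¬ a = b := fun h => hba h.symm
      simp [this]
  | succ t ih =>
    obtain ⟨Ω, hΩ, h, h1, h2, h3⟩ := ih
    refine ⟨(Bool × Fin k × Bool) × Ω, inferInstance, fun q => MIX_let x q.1 * h q.2, ?_, ?_, ?_⟩
    · intro q
      exact ((MIX_let_WL x q.1).mul (h1 q.2)).mono (by omega)
    · rw [Fintype.card_prod, h2]
      simp only [Fintype.card_prod, Fintype.card_bool, Fintype.card_fin]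
      ring
    · intro r a b
      rw [Function.iterate_succ_apply', pow_succ, mul_assoc, ← MIX_lz hk x, Finset.mul_sum]
      have h4 : (#{q : (Bool × Fin k × Bool) × Ω |
          mv ((MIX_let x q.1 * h q.2 : Alt n) : Equiv.Perm (Fin n)) a = b} : ℝ) =
          ∑ c : Bool × Fin k × Bool, (#{ω | mv (h ω : Equiv.Perm (Fin n)) a =
            mv ((MIX_let x c : Alt n) : Equiv.Perm (Fin n))⁻¹ b} : ℝ) := by
        have h5 := Finset.card_eq_sum_card_fiberwise
          (f := fun q : (Bool × Fin k × Bool) × Ω => q.1)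
          (s := Finset.univ.filter fun q : (Bool × Fin k × Bool) × Ω =>
            mv ((MIX_let x q.1 * h q.2 : Alt n) : Equiv.Perm (Fin n)) a = b)
          (t := Finset.univ) (fun _ _ => Finset.mem_coe.2 (mem_univ _))
        rw [h5]
        push_cast
        apply Finset.sum_congr rfl
        intro c _
        congr 1
        apply Finset.card_bij' (fun q _ => q.2) (fun ω _ => (c, ω))
        case hi =>
          intro q hq
          rw [mem_filter, mem_filter] at hq
          rw [mem_filter]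
          refine ⟨mem_univ _, ?_⟩
          rw [← hq.1.2, ← hq.2, mv_mul, ← mv_mul (_⁻¹)]
          simp
        case hj =>
          intro ω hω
          rw [mem_filter] at hω
          rw [mem_filter, mem_filter]
          refine ⟨⟨mem_univ _, ?_⟩, rfl⟩
          rw [mv_mul, hω.2, ← mv_mul]
          simp
        case left_inv =>
          intro q hq
          rw [mem_filter, mem_filter] at hq
          exact Prod.ext hq.2.symm rfl
        case right_inv =>
          intro ω _
          rfl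
      rw [h4]
      exact Finset.sum_congr rfl fun c _ => h3 r a _

/-- from the spectral gap to mixing of the lazy walk -/
theorem MIX (n k m ℓ : ℕ) (hn : 1 ≤ n) (hk : 1 ≤ k) (x : Fin k → Alt n) (ε : ℝ) (hε : 0 < ε)
    (hε1 : ε ≤ 1) (hgap : Sgap n m ε x) (hℓ : 2 * (n : ℝ) ^ m * (1 - ε / 2) ^ ℓ ≤ 1) :
    Mixed x m ℓ := by
  classical
  have hk0 : (0 : ℝ) < k := by
    have : 0 < k := by omega
    exact_mod_cast this
  obtain ⟨Ω, hΩ, h, h1, h2, h3⟩ := MIX_fam hk x ℓ
  have hN : 0 < Fintype.card Ω := by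
    rw [h2]
    positivity
  refine ⟨Fintype.card Ω, fun i => h ((Fintype.equivFin Ω).symm i), hN, fun i => h1 _, ?_⟩
  intro r hr a b
  have hcount : (#{i : Fin (Fintype.card Ω) |
      mv (h ((Fintype.equivFin Ω).symm i) : Equiv.Perm (Fin n)) a = b} : ℕ) =
      #{ω | mv (h ω : Equiv.Perm (Fin n)) a = b} := by
    apply Finset.card_bij' (fun i _ => (Fintype.equivFin Ω).symm i)
      (fun ω _ => (Fintype.equivFin Ω) ω)
    case hi =>
      intro i hi
      rw [mem_filter] at hi ⊢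
      exact ⟨mem_univ _, hi.2⟩
    case hj =>
      intro ω hω
      rw [mem_filter] at hω ⊢
      refine ⟨mem_univ _, ?_⟩
      rw [Equiv.symm_apply_apply]
      exact hω.2
    case left_inv =>
      intro i _
      simp
    case right_inv =>
      intro ω _
      simp
  rw [hcount, h3]
  obtain ⟨M, hM⟩ : ∃ M : ℝ, M = Fintype.card (Tup r n) := ⟨_, rfl⟩
  have hMpos : 0 < M := by
    rw [hM]
    exact_mod_cast Fintype.card_pos_iff.2 ⟨a⟩
  have hMle : M ≤ (n : ℝ) ^ m := by
    have h4 : Fintype.card (Tup r n) ≤ n ^ m := by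
      rw [Fintype.card_embedding_eq, Fintype.card_fin, Fintype.card_fin]
      exact (Nat.descFactorial_le_pow n r).trans (Nat.pow_le_pow_right hn hr)
    rw [hM]
    exact_mod_cast h4
  have hcard : (Fintype.card Ω : ℝ) = (4 * k) ^ ℓ := by
    rw [h2]
    push_cast
    rfl
  rw [hcard, ← hM]
  -- the distribution
  obtain ⟨D, hD⟩ : ∃ D : ℕ → Tup r n → ℝ, ∀ t, D t =
      (lz (fun i => mvE (x i : Equiv.Perm (Fin n))))^[t] (fun c => if c = a then 1 else 0) :=
    ⟨_, fun _ => rfl⟩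
  have hDs : ∀ t, D (t + 1) = lz (fun i => mvE (x i : Equiv.Perm (Fin n))) (D t) := by
    intro t
    rw [hD, hD, Function.iterate_succ_apply']
  have hlin : ∀ (E : Tup r n → ℝ) (c : ℝ) (q : Tup r n),
      lz (fun i => mvE (x i : Equiv.Perm (Fin n))) (fun q => E q - c) q =
        lz (fun i => mvE (x i : Equiv.Perm (Fin n))) E q - c := by
    intro E c q
    unfold lz
    have h5 : ∑ i : Fin k, ((E ((mvE (x i : Equiv.Perm (Fin n))) q) - c) +
        (E ((mvE (x i : Equiv.Perm (Fin n)))⁻¹ q) - c)) =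
        ∑ i : Fin k, (E ((mvE (x i : Equiv.Perm (Fin n))) q) +
          (E ((mvE (x i : Equiv.Perm (Fin n)))⁻¹ q))) - 2 * k * c := by
      have h6 : ∀ i : Fin k, (E ((mvE (x i : Equiv.Perm (Fin n))) q) - c) +
        (E ((mvE (x i : Equiv.Perm (Fin n)))⁻¹ q) - c) =
        (E ((mvE (x i : Equiv.Perm (Fin n))) q) +
          (E ((mvE (x i : Equiv.Perm (Fin n)))⁻¹ q))) - 2 * c := fun i => by ring
      rw [Finset.sum_congr rfl fun i _ => h6 i, Finset.sum_sub_distrib, Finset.sum_const,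
        Finset.card_univ, Fintype.card_fin, nsmul_eq_mul]
      ring
    rw [h5]
    field_simp
    ring
  have hind : ∀ t, ∑ q, (D t q - 1 / M) = 0 ∧
      ∑ q, (D t q - 1 / M) ^ 2 ≤ ((1 - ε / 2) ^ 2) ^ t := by
    intro t
    induction t with
    | zero =>
      have h0 : ∀ q, D 0 q = if q = a then 1 else 0 := by
        intro q
        rw [hD]
        rfl
      have e1 : ∑ q : Tup r n, (if q = a then (1 : ℝ) else 0) = 1 := by
        rw [Finset.sum_ite_eq' Finset.univ a]
        simp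
      have e2 : ∑ q : Tup r n, (1 / M : ℝ) = 1 := by
        rw [Finset.sum_const, Finset.card_univ, nsmul_eq_mul, ← hM]
        field_simp
      constructor
      · rw [Finset.sum_sub_distrib, e2, Finset.sum_congr rfl fun q _ => h0 q, e1, sub_self]
      · have e3 : ∀ q, (D 0 q - 1 / M) ^ 2 =
            (if q = a then (1 : ℝ) else 0) * (1 - 2 / M) + 1 / M * (1 / M) := by
          intro q
          rw [h0]
          split_ifs <;> ring
        rw [Finset.sum_congr rfl fun q _ => e3 q, Finset.sum_add_distrib, ← Finset.sum_mul, e1,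
          ← Finset.sum_mul, e2, pow_zero]
        have : 0 ≤ 1 / M := by positivity
        have h7 : 2 / M = 2 * (1 / M) := by ring
        rw [h7]
        linarith
    | succ t ih =>
      have h5 := MIXA hk (fun i => mvE (x i : Equiv.Perm (Fin n))) ε hε hε1
        (fun f hf => hgap r hr f hf) (fun q => D t q - 1 / M) ih.1
      have h6 : ∀ q, lz (fun i => mvE (x i : Equiv.Perm (Fin n))) (fun q => D t q - 1 / M) q =
          D (t + 1) q - 1 / M := by
        intro q
        rw [hlin, hDs]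
      rw [Finset.sum_congr rfl fun q _ => h6 q,
        Finset.sum_congr rfl fun q _ => congrArg (· ^ 2) (h6 q)] at h5
      refine ⟨h5.1, h5.2.trans ?_⟩
      rw [pow_succ' ((1 - ε / 2) ^ 2) t]
      exact mul_le_mul_of_nonneg_left ih.2 (sq_nonneg _)
  have hq0 : 0 ≤ 1 - ε / 2 := by linarith
  have hb : |D ℓ b - 1 / M| ≤ (1 - ε / 2) ^ ℓ := by
    have h12 : (D ℓ b - 1 / M) ^ 2 ≤ ((1 - ε / 2) ^ ℓ) ^ 2 := by
      calc (D ℓ b - 1 / M) ^ 2 ≤ ∑ q, (D ℓ q - 1 / M) ^ 2 :=
            Finset.single_le_sum (f := fun q => (D ℓ q - 1 / M) ^ 2) (fun q _ => sq_nonneg _)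
              (mem_univ b)
        _ ≤ ((1 - ε / 2) ^ 2) ^ ℓ := (hind ℓ).2
        _ = ((1 - ε / 2) ^ ℓ) ^ 2 := by rw [← pow_mul, ← pow_mul, mul_comm]
    have h13 := sq_le_sq.1 h12
    rwa [abs_of_nonneg (pow_nonneg hq0 ℓ)] at h13
  have hsmall : 2 * M * (1 - ε / 2) ^ ℓ ≤ 1 := by
    refine le_trans ?_ hℓ
    apply mul_le_mul_of_nonneg_right _ (pow_nonneg hq0 _)
    linarith
  obtain ⟨hb1, hb2⟩ := abs_le.1 hb
  have hMD : |M * D ℓ b - 1| ≤ 1 / 2 := by
    have h8 : M * D ℓ b - 1 = M * (D ℓ b - 1 / M) := by field_simp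
    rw [h8, abs_mul, abs_of_pos hMpos]
    calc M * |D ℓ b - 1 / M| ≤ M * (1 - ε / 2) ^ ℓ := mul_le_mul_of_nonneg_left hb hMpos.le
      _ ≤ 1 / 2 := by linarith
  obtain ⟨c1, c2⟩ := abs_le.1 hMD
  rw [← hD]
  have hp : (0 : ℝ) < (4 * k) ^ ℓ := by positivity
  constructor
  · have h9 : 2 * M * ((4 * k) ^ ℓ * D ℓ b) = (4 * k) ^ ℓ * (2 * (M * D ℓ b)) := by ring
    rw [h9]
    nlinarith
  · have h9 : M * ((4 * k) ^ ℓ * D ℓ b) = (4 * k) ^ ℓ * (M * D ℓ b) := by ring
    rw [h9]
    nlinarith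

end RD
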