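import Pool.Agent.H513R2.RD.Defs

namespace RD
open Finset RC14

theorem CJ_ai {n : ℕ} (g : Equiv.Perm (Fin n)) (v : Fin n) : g (g⁻¹ v) = v := by simp

theorem CJ_ia {n : ℕ} (g : Equiv.Perm (Fin n)) (v : Fin n) : g⁻¹ (g v) = v := by simp

/-- a mixed family contains an element with prescribed values on a small set -/
theorem CJ_exists {n k m ℓ : ℕ} {x : Fin k → Alt n} (hM : Mixed x m ℓ) {r : ℕ} (hr : r ≤ m)
    (a b : Tup r n) : ∃ h : Alt n, WL x ℓ h ∧ mv (h : Equiv.Perm (Fin n)) a = b := by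
  obtain ⟨N, h, hN, hW, hmix⟩ := hM
  obtain ⟨h1, -⟩ := hmix r hr a b
  have h2 : (#{i | mv (h i : Equiv.Perm (Fin n)) a = b} : ℕ) ≠ 0 := by
    intro h0
    rw [h0] at h1
    have : (0 : ℝ) < N := by exact_mod_cast hN
    simp at h1
    linarith
  obtain ⟨i, hi⟩ := Finset.card_pos.1 (Nat.pos_of_ne_zero h2)
  exact ⟨h i, hW i, (Finset.mem_filter.1 hi).2⟩

/-- all permutations of the cycle type of a short word of small support are short words -/
theorem CJ (n k m ℓ L : ℕ) (x : Fin k → Alt n) (hM : Mixed x m ℓ) (y y' : Alt n)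
    (hy : WL x L y) (hm : sz y ≤ m)
    (h : (y : Equiv.Perm (Fin n)).cycleType = (y' : Equiv.Perm (Fin n)).cycleType) :
    WL x (L + 2 * ℓ) y' := by
  obtain ⟨σ, hσ⟩ := isConj_iff.1 (Equiv.Perm.isConj_iff_cycleType_eq.2 h)
  obtain ⟨g, hgW, hg⟩ := CJ_exists hM hm
    (((y : Equiv.Perm (Fin n)).support.orderEmbOfFin rfl).toEmbedding)
    (mv σ (((y : Equiv.Perm (Fin n)).support.orderEmbOfFin rfl).toEmbedding))
  have hag : ∀ u ∈ (y : Equiv.Perm (Fin n)).support, (g : Equiv.Perm (Fin n)) u = σ u := by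
    intro u hu
    have h1 : u ∈ Set.range ((y : Equiv.Perm (Fin n)).support.orderEmbOfFin rfl) := by
      rw [Finset.range_orderEmbOfFin]
      exact hu
    obtain ⟨i, rfl⟩ := h1
    have h2 := DFunLike.congr_fun hg i
    exact h2
  have hfin : y' = g * y * g⁻¹ := by
    apply Subtype.ext
    rw [← hσ]
    ext v
    congr 1
    simp only [Subgroup.coe_mul, Equiv.Perm.mul_apply, Subgroup.coe_inv]
    obtain ⟨u, rfl⟩ : ∃ u, (g : Equiv.Perm (Fin n)) u = v := (g : Equiv.Perm (Fin n)).surjective v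
    rw [CJ_ia]
    by_cases hu : u ∈ (y : Equiv.Perm (Fin n)).support
    · rw [hag u hu, CJ_ia, hag]
      exact Equiv.Perm.apply_mem_support.2 hu
    · rw [Equiv.Perm.notMem_support.1 hu]
      have h3 : (y : Equiv.Perm (Fin n)) (σ⁻¹ ((g : Equiv.Perm (Fin n)) u)) =
          σ⁻¹ ((g : Equiv.Perm (Fin n)) u) := by
        by_contra hne
        have h4 := hag _ (Equiv.Perm.mem_support.2 hne)
        rw [CJ_ai] at h4
        have h5 := (g : Equiv.Perm (Fin n)).injective h4
        rw [h5] at hne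
        exact hu (Equiv.Perm.mem_support.2 hne)
      rw [h3, CJ_ai]
  rw [hfin]
  exact hy.conj hgW

end RD
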