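import Pool.Agent.H513R2.RD.Base

namespace RD
open Finset RC14

/-- the rotation of a family of disjoint triples -/
lemma RED_rot {n : ℕ} {ι : Type} [Fintype ι] [DecidableEq ι] (F : ι × Fin 3 ↪ Fin n) :
    ∃ τ : Equiv.Perm (Fin n), (∀ i j, τ (F (i, j)) = F (i, j + 1)) ∧
      (∀ x, (∀ y, F y ≠ x) → τ x = x) ∧ τ ^ 3 = 1 ∧ τ.support.card = 3 * Fintype.card ι := by
  classical
  let base : Equiv.Perm (ι × Fin 3) := Equiv.prodCongr (Equiv.refl ι) (Equiv.addRight (1 : Fin 3))
  have h1 : ∀ i j, base.viaEmbedding F (F (i, j)) = F (i, j + 1) := by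
    intro i j
    rw [Equiv.Perm.viaEmbedding_apply]
    rfl
  have h2 : ∀ x, (∀ y, F y ≠ x) → base.viaEmbedding F x = x := by
    intro x hx
    apply Equiv.Perm.viaEmbedding_apply_of_notMem
    rintro ⟨y, hy⟩
    exact hx y hy
  refine ⟨base.viaEmbedding F, h1, h2, ?_, ?_⟩
  · ext x
    by_cases hx : ∃ y, F y = x
    · obtain ⟨⟨i, j⟩, rfl⟩ := hx
      rw [pow_succ, pow_succ, pow_one, Equiv.Perm.mul_apply, Equiv.Perm.mul_apply, h1, h1, h1]
      have : j + 1 + 1 + 1 = j := by
        revert j; decide
      rw [this]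
      rfl
    · push Not at hx
      have := h2 x hx
      rw [pow_succ, pow_succ, pow_one, Equiv.Perm.mul_apply, Equiv.Perm.mul_apply, this, this, this]
      rfl
  · have hs : (base.viaEmbedding F).support = Finset.univ.map F := by
      ext x
      rw [Equiv.Perm.mem_support, Finset.mem_map]
      constructor
      · intro hx
        by_contra hcon
        push Not at hcon
        exact hx (h2 x fun y => hcon y (Finset.mem_univ y))
      · rintro ⟨⟨i, j⟩, -, rfl⟩
        rw [h1]
        intro he
        have := F.injective he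
        simp at this
    rw [hs, Finset.card_map, Finset.card_univ, Fintype.card_prod, Fintype.card_fin, mul_comm]

lemma RED_ct {n c : ℕ} {τ : Equiv.Perm (Fin n)} (h3 : τ ^ 3 = 1) (hs : τ.support.card = 3 * c) :
    τ.cycleType = Multiset.replicate c 3 := by
  have : Fact (Nat.Prime 3) := ⟨Nat.prime_three⟩
  have h1 := Equiv.Perm.cycleType_of_pow_prime_eq_one (p := 3) h3
  have h2 := Equiv.Perm.sum_cycleType τ
  rw [h1, Multiset.sum_replicate, hs, smul_eq_mul] at h2
  have h4 : Multiset.card τ.cycleType = c := by omega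
  rw [h1, h4]

lemma RED_even {n : ℕ} {τ : Equiv.Perm (Fin n)} (h3 : τ ^ 3 = 1) :
    τ ∈ alternatingGroup (Fin n) := by
  rw [Equiv.Perm.mem_alternatingGroup]
  have h1 : (Equiv.Perm.sign τ) ^ 3 = 1 := by rw [← map_pow, h3, map_one]
  have h2 := Int.units_sq (Equiv.Perm.sign τ)
  rw [pow_succ, h2, one_mul] at h1
  exact h1

/-- step (A) -/
lemma RED_A {n c : ℕ} (g : Equiv.Perm (Fin n)) (h : 3 * c ≤ g.support.card) :
    ∃ τ : Equiv.Perm (Fin n), τ ^ 3 = 1 ∧ τ.support.card = 3 * c ∧
      (τ * g).support.card + c ≤ g.support.card := by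
  classical
  obtain ⟨P, hP, hPc, hPi⟩ := IND g c h
  have hgP : P.image g ⊆ g.support := by
    intro x hx
    obtain ⟨p, hp, rfl⟩ := Finset.mem_image.1 hx
    exact Equiv.Perm.apply_mem_support.2 (hP hp)
  have hgPc : (P.image g).card = c := by
    rw [Finset.card_image_of_injective _ g.injective, hPc]
  have hcard : c ≤ (g.support \ (P ∪ P.image g)).card := by
    have h1 := Finset.le_card_sdiff (P ∪ P.image g) g.support
    have h2 := Finset.card_union_le P (P.image g)
    omega
  obtain ⟨Q, hQ, hQc⟩ := Finset.exists_subset_card_eq hcard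
  have eP : Fin c ≃ P := (P.equivFinOfCardEq hPc).symm
  have eQ : Fin c ≃ Q := (Q.equivFinOfCardEq hQc).symm
  let F0 : Fin c × Fin 3 → Fin n := fun y => ![g (eP y.1), (eP y.1 : Fin n), (eQ y.1 : Fin n)] y.2
  have hF : Function.Injective F0 := by
    rintro ⟨i, j⟩ ⟨i', j'⟩ he
    have mP : ∀ i, (eP i : Fin n) ∈ P := fun i => (eP i).2
    have mQ : ∀ i, (eQ i : Fin n) ∈ Q := fun i => (eQ i).2
    have mgP : ∀ i, g (eP i) ∈ P.image g := fun i => Finset.mem_image_of_mem _ (mP i)
    have dQP : ∀ i i', (eQ i : Fin n) ≠ eP i' := by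
      intro i i' h'
      have := hQ (mQ i)
      rw [Finset.mem_sdiff, Finset.mem_union, not_or] at this
      exact this.2.1 (h' ▸ mP i')
    have dQg : ∀ i i', (eQ i : Fin n) ≠ g (eP i') := by
      intro i i' h'
      have := hQ (mQ i)
      rw [Finset.mem_sdiff, Finset.mem_union, not_or] at this
      exact this.2.2 (h' ▸ mgP i')
    have dgP : ∀ i i', g (eP i) ≠ (eP i' : Fin n) := by
      intro i i' h'
      exact hPi _ (mP i) (h' ▸ mP i')
    fin_cases j <;> fin_cases j' <;> simp only [F0] at he
    · have := eP.injective (Subtype.ext (g.injective he)); rw [this]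
    · exact absurd he (dgP i i')
    · exact absurd he.symm (dQg i' i)
    · exact absurd he.symm (dgP i' i)
    · have := eP.injective (Subtype.ext he); rw [this]
    · exact absurd he.symm (dQP i' i)
    · exact absurd he (dQg i i')
    · exact absurd he (dQP i i')
    · have := eQ.injective (Subtype.ext he); rw [this]
  obtain ⟨τ, ht1, ht2, ht3, ht4⟩ := RED_rot ⟨F0, hF⟩
  refine ⟨τ, ht3, by rw [ht4, Fintype.card_fin], ?_⟩
  have hrange : ∀ y, F0 y ∈ g.support := by
    rintro ⟨i, j⟩
    fin_cases j
    · exact hgP (Finset.mem_image_of_mem _ (eP i).2)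
    · exact hP (eP i).2
    · exact (Finset.mem_sdiff.1 (hQ (eQ i).2)).1
  have hsub : (τ * g).support ⊆ g.support \ P := by
    intro x hx
    rw [Equiv.Perm.mem_support, Equiv.Perm.mul_apply] at hx
    rw [Finset.mem_sdiff]
    constructor
    · by_contra hxs
      have h1 : g x = x := by
        by_contra h'
        exact hxs (Equiv.Perm.mem_support.2 h')
      apply hx
      rw [h1]
      apply ht2
      intro y hy
      apply hxs
      rw [← hy]
      exact hrange y
    · intro hxP
      apply hx
      have h1 := ht1 (eP.symm ⟨x, hxP⟩) 0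
      simp only [Function.Embedding.coeFn_mk, F0] at h1
      simpa using h1
  have h1 := Finset.card_le_card hsub
  rw [Finset.card_sdiff_of_subset hP, hPc] at h1
  omega

/-- step (B): a single 3-cycle -/
lemma RED_B {n : ℕ} (g : Equiv.Perm (Fin n)) (hg : 3 ≤ g.support.card) :
    ∃ F : Fin 3 ↪ Fin n, ∀ t : Equiv.Perm (Fin n), (∀ j, t (F j) = F (j + 1)) →
      (∀ x, (∀ j, F j ≠ x) → t x = x) → (t * g).support.card + 1 ≤ g.support.card := by
  classical
  obtain ⟨p, hp⟩ : g.support.Nonempty := Finset.card_pos.1 (by omega)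
  have hgp : g p ∈ g.support := Equiv.Perm.apply_mem_support.2 hp
  have hne : g p ≠ p := Equiv.Perm.mem_support.1 hp
  obtain ⟨q, hq, hqn⟩ : ∃ q ∈ g.support, q ∉ ({p, g p} : Finset (Fin n)) := by
    apply Finset.exists_mem_notMem_of_card_lt_card
    have := Finset.card_le_two (a := p) (b := g p)
    omega
  simp only [Finset.mem_insert, Finset.mem_singleton, not_or] at hqn
  refine ⟨⟨![g p, p, q], ?_⟩, ?_⟩
  · intro j j' he
    fin_cases j <;> fin_cases j'
    · rfl
    · exact absurd he hne
    · exact absurd he.symm hqn.2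
    · exact absurd he.symm hne
    · rfl
    · exact absurd he.symm hqn.1
    · exact absurd he hqn.2
    · exact absurd he hqn.1
    · rfl
  · intro t ht1 ht2
    have hsub : (t * g).support ⊆ g.support.erase p := by
      intro x hx
      rw [Equiv.Perm.mem_support, Equiv.Perm.mul_apply] at hx
      rw [Finset.mem_erase]
      constructor
      · rintro rfl
        apply hx
        exact ht1 0
      · by_contra hxs
        have h1 : g x = x := by
          by_contra h'
          exact hxs (Equiv.Perm.mem_support.2 h')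
        apply hx
        rw [h1]
        apply ht2
        intro j hj
        apply hxs
        rw [← hj]
        fin_cases j
        · exact hgp
        · exact hp
        · exact hq
    have h1 := Finset.card_le_card hsub
    rw [Finset.card_erase_of_mem hp] at h1
    omega

/-- a 3-cycle is a product of two products of `c` disjoint 3-cycles -/
lemma RED_two {n c : ℕ} (hc : 1 ≤ c) (hn : 3 * c ≤ n) (F : Fin 3 ↪ Fin n) :
    ∃ t a b : Equiv.Perm (Fin n), (∀ j, t (F j) = F (j + 1)) ∧
      (∀ x, (∀ j, F j ≠ x) → t x = x) ∧ t = a * b ∧ a ^ 3 = 1 ∧ b ^ 3 = 1 ∧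
      a.support.card = 3 * c ∧ b.support.card = 3 * c := by
  classical
  let F1 : Unit × Fin 3 ↪ Fin n := ⟨fun y => F y.2, by
    rintro ⟨i, j⟩ ⟨i', j'⟩ he
    have := F.injective he
    simp only at this
    rw [this]⟩
  obtain ⟨t, ht1, ht2, ht3, ht4⟩ := RED_rot F1
  -- an embedding avoiding the range of `F`
  have hcard : Fintype.card (Fin (c - 1) × Fin 3) ≤ Fintype.card {x : Fin n // x ∉ Set.range F} := by
    rw [Fintype.card_prod, Fintype.card_fin, Fintype.card_fin]
    have h1 : Fintype.card {x : Fin n // x ∉ Set.range F} = n - 3 := by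
      rw [Fintype.card_subtype_compl, Fintype.card_fin]
      congr 1
      rw [← Set.toFinset_card]
      have : (Set.range F).toFinset = Finset.univ.map F := by
        ext x; simp
      rw [this, Finset.card_map, Finset.card_univ, Fintype.card_fin]
    rw [h1]
    omega
  obtain ⟨H⟩ := Function.Embedding.nonempty_of_card_le hcard
  let F2 : Fin (c - 1) × Fin 3 ↪ Fin n := H.trans (Function.Embedding.subtype _)
  have hF2 : ∀ y, F2 y ∉ Set.range F := fun y => (H y).2
  obtain ⟨E, hE1, hE2, hE3, hE4⟩ := RED_rot F2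
  have hdis : Equiv.Perm.Disjoint t E := by
    intro x
    by_cases hx : ∃ y, F2 y = x
    · left
      obtain ⟨y, rfl⟩ := hx
      apply ht2
      rintro ⟨u, j⟩ he
      exact hF2 y ⟨j, he⟩
    · right
      push Not at hx
      exact hE2 x hx
  have hcomm : Commute t E := hdis.commute
  have hti : t⁻¹ ^ 3 = 1 := by rw [inv_pow, ht3, inv_one]
  have hEi : E⁻¹ ^ 3 = 1 := by rw [inv_pow, hE3, inv_one]
  have hc1 : Commute t⁻¹ E := hcomm.inv_left
  have hc2 : Commute t⁻¹ E⁻¹ := hcomm.inv_inv
  have ht4' : t.support.card = 3 := by rw [ht4]; simp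
  have hE4' : E.support.card = 3 * (c - 1) := by rw [hE4, Fintype.card_fin]
  refine ⟨t, t⁻¹ * E, t⁻¹ * E⁻¹, fun j => ht1 () j, ?_, ?_, ?_, ?_, ?_, ?_⟩
  · intro x hx
    exact ht2 x (fun y => hx y.2)
  · have h1 : t⁻¹ * E * (t⁻¹ * E⁻¹) = t⁻¹ * t⁻¹ := by
      rw [mul_assoc, ← mul_assoc E, ← hc1.eq]
      group
    rw [h1]
    have h2 : t * t * t = 1 := by
      have := ht3
      rw [pow_succ, pow_succ, pow_one] at this
      exact this
    have h3 : t = (t * t)⁻¹ := eq_inv_of_mul_eq_one_right h2
    rw [mul_inv_rev] at h3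
    exact h3
  · rw [hc1.mul_pow, hti, hE3, one_mul]
  · rw [hc2.mul_pow, hti, hEi, one_mul]
  · rw [hdis.inv_left.card_support_mul, Equiv.Perm.support_inv, ht4', hE4']
    omega
  · rw [hdis.inv_left.inv_right.card_support_mul, Equiv.Perm.support_inv, Equiv.Perm.support_inv,
      ht4', hE4']
    omega

lemma RED_three {n : ℕ} (g : Alt n) (hg : g ≠ 1) :
    3 ≤ (g : Equiv.Perm (Fin n)).support.card := by
  have h0 : (g : Equiv.Perm (Fin n)) ≠ 1 := fun h => hg (Subtype.ext h)
  have h1 := Equiv.Perm.two_le_card_support_of_ne_one h0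
  rcases Nat.lt_or_ge 2 (g : Equiv.Perm (Fin n)).support.card with h | h
  · exact h
  · exfalso
    have h2 : (g : Equiv.Perm (Fin n)).support.card = 2 := le_antisymm h h1
    have h3 := (Equiv.Perm.card_support_eq_two.1 h2).sign_eq
    have h4 := Equiv.Perm.mem_alternatingGroup.1 g.2
    rw [h4] at h3
    exact absurd h3 (by decide)

lemma RED_main (n c : ℕ) (hc : 1 ≤ c) (hn : 3 * c ≤ n) (s : ℕ) : ∀ g : Alt n,
    (g : Equiv.Perm (Fin n)).support.card = s →
    ∃ l : List (Alt n), l.length ≤ (if s < 6 * c then 2 * s else s / c + 12 * c) ∧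
      (∀ y ∈ l, (y : Equiv.Perm (Fin n)).cycleType = Multiset.replicate c 3) ∧ l.prod = g := by
  induction s using Nat.strong_induction_on with
  | _ s ih =>
    intro g hg
    by_cases h6 : s < 6 * c
    · rw [if_pos h6]
      by_cases h1 : g = 1
      · exact ⟨[], by simp, by simp, by simp [h1]⟩
      · obtain ⟨F, hF⟩ := RED_B (g : Equiv.Perm (Fin n)) (RED_three g h1)
        obtain ⟨t, a, b, ht1, ht2, hab, ha3, hb3, hac, hbc⟩ := RED_two hc hn F
        have hcard := hF t ht1 ht2
        let A : Alt n := ⟨a, RED_even ha3⟩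
        let B : Alt n := ⟨b, RED_even hb3⟩
        set g' : Alt n := A * B * g with hg'
        have hg'v : (g' : Equiv.Perm (Fin n)) = t * g := by
          rw [hg', hab]; rfl
        obtain ⟨l, hl, hly, hlp⟩ := ih _ (by rw [hg'v]; omega) g' rfl
        refine ⟨B⁻¹ :: A⁻¹ :: l, ?_, ?_, ?_⟩
        · rw [hg'v] at hl
          rw [if_pos (by omega)] at hl
          simp only [List.length_cons]
          omega
        · intro y hy
          rw [List.mem_cons, List.mem_cons] at hy
          rcases hy with rfl | rfl | hy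
          · show (b⁻¹).cycleType = _
            rw [Equiv.Perm.cycleType_inv]
            exact RED_ct hb3 hbc
          · show (a⁻¹).cycleType = _
            rw [Equiv.Perm.cycleType_inv]
            exact RED_ct ha3 hac
          · exact hly y hy
        · rw [List.prod_cons, List.prod_cons, hlp, hg']
          group
    · rw [if_neg h6]
      push Not at h6
      obtain ⟨τ, h3, hs, hcard⟩ := RED_A (c := c) (g : Equiv.Perm (Fin n)) (by omega)
      let A : Alt n := ⟨τ, RED_even h3⟩
      set g' : Alt n := A * g with hg'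
      have hg'v : (g' : Equiv.Perm (Fin n)) = τ * g := rfl
      obtain ⟨l, hl, hly, hlp⟩ := ih _ (by rw [hg'v]; omega) g' rfl
      refine ⟨A⁻¹ :: l, ?_, ?_, ?_⟩
      · rw [List.length_cons]
        rw [hg'v] at hl
        set s' := (τ * (g : Equiv.Perm (Fin n))).support.card with hs'
        have h6' : 6 ≤ s / c := by
          rw [Nat.le_div_iff_mul_le (by omega)]
          exact h6
        have hdiv : s' / c + 1 ≤ s / c := by
          have h1 : (s' + c) / c ≤ s / c := Nat.div_le_div_right (by omega)
          rw [Nat.add_div_right _ (by omega)] at h1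
          exact h1
        by_cases h7 : s' < 6 * c
        · rw [if_pos h7] at hl
          omega
        · rw [if_neg h7] at hl
          omega
      · intro y hy
        rw [List.mem_cons] at hy
        rcases hy with rfl | hy
        · show (τ⁻¹).cycleType = _
          rw [Equiv.Perm.cycleType_inv]
          exact RED_ct h3 hs
        · exact hly y hy
      · rw [List.prod_cons, hlp, hg']
        group

/-- every even permutation is a product of at most `n / c + 12 c` permutations each of which is a
product of exactly `c` disjoint 3-cycles -/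
theorem RED (n c : ℕ) (hc : 1 ≤ c) (hn : 3 * c ≤ n) (g : Alt n) :
    ∃ l : List (Alt n), l.length ≤ n / c + 12 * c ∧
      (∀ y ∈ l, (y : Equiv.Perm (Fin n)).cycleType = Multiset.replicate c 3) ∧ l.prod = g := by
  obtain ⟨l, hl, hly, hlp⟩ := RED_main n c hc hn _ g rfl
  refine ⟨l, hl.trans ?_, hly, hlp⟩
  have h1 : (g : Equiv.Perm (Fin n)).support.card ≤ n := by
    have := Finset.card_le_univ (g : Equiv.Perm (Fin n)).support
    rwa [Fintype.card_fin] at this
  split_ifs with h
  · have h9 : 2 * (g : Equiv.Perm (Fin n)).support.card ≤ 12 * c := by omega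
    exact h9.trans (Nat.le_add_left _ _)
  · exact Nat.add_le_add_right (Nat.div_le_div_right h1) _

end RD
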