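import Pool.Agent.H513R2.RD.Base

namespace RD
open Finset RC14

theorem TRI_ai {n : ℕ} (g : Equiv.Perm (Fin n)) (v : Fin n) : g (g⁻¹ v) = v := by simp

theorem TRI_ia {n : ℕ} (g : Equiv.Perm (Fin n)) (v : Fin n) : g⁻¹ (g v) = v := by simp

/-- a mixed family contains an element with prescribed values on a small set -/
theorem TRI_exists {n k m ℓ : ℕ} {x : Fin k → Alt n} (hM : Mixed x m ℓ) {r : ℕ} (hr : r ≤ m)
    (a b : Tup r n) : ∃ h : Alt n, WL x ℓ h ∧ mv (h : Equiv.Perm (Fin n)) a = b := by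
  obtain ⟨N, h, hN, hW, hmix⟩ := hM
  obtain ⟨h1, -⟩ := hmix r hr a b
  have h2 : (#{i | mv (h i : Equiv.Perm (Fin n)) a = b} : ℕ) ≠ 0 := by
    intro h0
    rw [h0] at h1
    have : (0 : ℝ) < N := by exact_mod_cast hN
    simp at h1
    linarith
  obtain ⟨i, hi⟩ := Finset.card_pos.1 (Nat.pos_of_ne_zero h2)
  exact ⟨h i, hW i, (Finset.mem_filter.1 hi).2⟩

/-- the commutator: abstract part -/
theorem TRI_perm {n : ℕ} (g h : Equiv.Perm (Fin n)) (P : Finset (Fin n)) (hP : P ⊆ g.support)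
    (hPg : ∀ p ∈ P, g p ∉ P) (hne : P.Nonempty) (h1 : ∀ p ∈ P, h p = p)
    (h2 : ∀ q ∈ g.support, q ∉ P → h q ∉ g.support) :
    (g⁻¹ * (h * g * h⁻¹)⁻¹ * g * (h * g * h⁻¹)).cycleType = Multiset.replicate P.card 3 := by
  obtain ⟨x, hx⟩ : ∃ x, x = h * g * h⁻¹ := ⟨_, rfl⟩
  obtain ⟨y, hy⟩ : ∃ y, y = g⁻¹ * x⁻¹ * g * x := ⟨_, rfl⟩
  rw [← hx, ← hy]
  have hxv : ∀ u, x (h u) = h (g u) := by
    intro u
    rw [hx]
    simp
  have hxi : ∀ u, x⁻¹ (h u) = h (g⁻¹ u) := by
    intro u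
    rw [hx]
    simp
  -- the supports meet in `P`
  have hA : ∀ v, g v ≠ v → x v ≠ v → v ∈ P := by
    intro v hg hxne
    obtain ⟨u, rfl⟩ := h.surjective v
    rw [hxv] at hxne
    have hu : u ∈ g.support := Equiv.Perm.mem_support.2 fun h' => hxne (by rw [h'])
    by_contra hv
    by_cases huP : u ∈ P
    · rw [h1 u huP] at hv
      exact hv huP
    · exact h2 u hu huP (Equiv.Perm.mem_support.2 hg)
  have hyv : ∀ v, y v = g⁻¹ (x⁻¹ (g (x v))) := by
    intro v
    rw [hy]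
    rfl
  have hgP : ∀ p ∈ P, g p ∈ g.support ∧ g p ∉ P := fun p hp =>
    ⟨Equiv.Perm.apply_mem_support.2 (hP hp), hPg p hp⟩
  have hgiP : ∀ p ∈ P, g⁻¹ p ∈ g.support ∧ g⁻¹ p ∉ P := by
    intro p hp
    constructor
    · rw [← Equiv.Perm.apply_mem_support, TRI_ai]
      exact hP hp
    · intro h'
      apply hPg _ h'
      rw [TRI_ai]
      exact hp
  -- `x` fixes `supp g \ P`
  have hfix : ∀ q, q ∈ g.support → q ∉ P → x q = q := by
    intro q hq hqP
    by_contra hne'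
    exact hqP (hA q (Equiv.Perm.mem_support.1 hq) hne')
  have hxiP : ∀ p ∈ P, x⁻¹ p = h (g⁻¹ p) ∧ x⁻¹ p ∉ g.support := by
    intro p hp
    have e1 : x⁻¹ p = h (g⁻¹ p) := by
      have := hxi p
      rwa [h1 p hp] at this
    refine ⟨e1, ?_⟩
    rw [e1]
    exact h2 _ (hgiP p hp).1 (hgiP p hp).2
  have y1 : ∀ p ∈ P, y p = g⁻¹ p := by
    intro p hp
    rw [hyv]
    have e1 : x p = h (g p) := by
      have := hxv p
      rwa [h1 p hp] at this
    have e2 : g (x p) = x p := by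
      rw [e1]
      exact Equiv.Perm.notMem_support.1 (h2 _ (hgP p hp).1 (hgP p hp).2)
    rw [e2, TRI_ia]
  have y2 : ∀ p ∈ P, y (g⁻¹ p) = x⁻¹ p := by
    intro p hp
    rw [hyv, hfix _ (hgiP p hp).1 (hgiP p hp).2, TRI_ai,
      Equiv.Perm.inv_eq_iff_eq]
    exact (Equiv.Perm.notMem_support.1 (hxiP p hp).2).symm
  have y3 : ∀ p ∈ P, y (x⁻¹ p) = p := by
    intro p hp
    rw [hyv, TRI_ai]
    have e1 : x⁻¹ (g p) = g p := by
      rw [Equiv.Perm.inv_eq_iff_eq]
      exact (hfix _ (hgP p hp).1 (hgP p hp).2).symm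
    rw [e1, TRI_ia]
  -- the support
  have hsupp : y.support = P ∪ P.image (fun p => g⁻¹ p) ∪ P.image (fun p => x⁻¹ p) := by
    ext v
    constructor
    · intro hv
      rw [Equiv.Perm.mem_support, hy] at hv
      rw [mem_union, mem_union, mem_image, mem_image]
      rcases cmt_support g x v hv with ⟨a1, a2⟩ | ⟨a1, a2⟩ | ⟨a1, a2⟩
      · exact Or.inl (Or.inl (hA v a1 a2))
      · exact Or.inl (Or.inr ⟨g v, hA _ a1 a2, by simp⟩)
      · exact Or.inr ⟨x v, hA _ a1 a2, by simp⟩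
    · intro hv
      rw [mem_union, mem_union, mem_image, mem_image] at hv
      rw [Equiv.Perm.mem_support]
      rcases hv with (hv | ⟨p, hp, rfl⟩) | ⟨p, hp, rfl⟩
      · rw [y1 v hv]
        intro h'
        apply (hgiP v hv).2
        rw [h']
        exact hv
      · rw [y2 p hp]
        intro h'
        apply (hxiP p hp).2
        rw [h']
        exact (hgiP p hp).1
      · rw [y3 p hp]
        intro h'
        apply (hxiP p hp).2
        rw [← h']
        exact hP hp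
  have hcard : y.support.card = 3 * P.card := by
    rw [hsupp, card_union_of_disjoint, card_union_of_disjoint,
      card_image_of_injective _ (fun a b hab => (g⁻¹).injective hab),
      card_image_of_injective _ (fun a b hab => (x⁻¹).injective hab)]
    · ring
    · rw [disjoint_left]
      intro v hv hv'
      obtain ⟨p, hp, rfl⟩ := mem_image.1 hv'
      exact (hgiP p hp).2 hv
    · rw [disjoint_left]
      intro v hv hv'
      obtain ⟨p, hp, rfl⟩ := mem_image.1 hv'
      apply (hxiP p hp).2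
      rcases mem_union.1 hv with hv | hv
      · exact hP hv
      · obtain ⟨q, hq, hqp⟩ := mem_image.1 hv
        rw [← hqp]
        exact (hgiP q hq).1
  have hcube : y ^ 3 = 1 := by
    ext v
    congr 1
    have e3 : (y ^ 3) v = y (y (y v)) := rfl
    rw [e3, Equiv.Perm.one_apply]
    by_cases hv : v ∈ y.support
    · rw [hsupp, mem_union, mem_union, mem_image, mem_image] at hv
      rcases hv with (hv | ⟨p, hp, rfl⟩) | ⟨p, hp, rfl⟩
      · rw [y1 v hv, y2 v hv, y3 v hv]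
      · rw [y2 p hp, y3 p hp, y1 p hp]
      · rw [y3 p hp, y1 p hp, y2 p hp]
    · have := Equiv.Perm.notMem_support.1 hv
      rw [this, this, this]
  have hne1 : y ≠ 1 := by
    intro h'
    rw [h', Equiv.Perm.support_one, card_empty] at hcard
    have := hne.card_pos
    omega
  have hord : orderOf y = 3 := orderOf_eq_prime hcube hne1
  obtain ⟨j, hj⟩ := Equiv.Perm.cycleType_prime_order (σ := y) (by rw [hord]; norm_num)
  rw [hord] at hj
  have hsum := Equiv.Perm.sum_cycleType y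
  rw [hj, hcard, Multiset.sum_replicate, smul_eq_mul] at hsum
  rw [hj]
  congr 1
  omega

/-- a product of exactly `c` disjoint 3-cycles as a commutator -/
theorem TRI (n k m ℓ c L : ℕ) (x : Fin k → Alt n) (hM : Mixed x m ℓ) (g : Alt n)
    (hg : WL x L g) (hc : 1 ≤ c) (h1 : 3 * c ≤ sz g) (h2 : sz g ≤ m) (h3 : 2 * sz g ≤ n) :
    ∃ y : Alt n, WL x (4 * L + 4 * ℓ) y ∧
      (y : Equiv.Perm (Fin n)).cycleType = Multiset.replicate c 3 := by
  classical
  obtain ⟨γ, hγ⟩ : ∃ γ : Equiv.Perm (Fin n), γ = (g : Equiv.Perm (Fin n)) := ⟨_, rfl⟩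
  have hsz : sz g = γ.support.card := by
    rw [hγ]
    rfl
  rw [hsz] at h1 h2 h3
  obtain ⟨P, hP, hPc, hPg⟩ := IND γ c h1
  obtain ⟨ι⟩ : Nonempty ({q : Fin n // q ∈ γ.support ∧ q ∉ P} ↪ {q : Fin n // q ∉ γ.support}) := by
    apply Function.Embedding.nonempty_of_card_le
    have e1 : Fintype.card {q : Fin n // q ∈ γ.support ∧ q ∉ P} ≤ γ.support.card := by
      rw [Fintype.card_subtype]
      apply card_le_card
      intro q hq
      exact (mem_filter.1 hq).2.1
    have e2 : Fintype.card {q : Fin n // q ∉ γ.support} = n - γ.support.card := by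
      rw [Fintype.card_subtype_compl, Fintype.card_fin, Fintype.card_coe]
    rw [e2]
    omega
  obtain ⟨f, hf⟩ : ∃ f : Fin n → Fin n, ∀ q, f q = if h : q ∈ γ.support ∧ q ∉ P then
      (ι ⟨q, h⟩ : Fin n) else q := ⟨_, fun _ => rfl⟩
  have hfP : ∀ q ∈ P, f q = q := by
    intro q hq
    rw [hf, dif_neg (fun h => h.2 hq)]
  have hfs : ∀ q (hq : q ∈ γ.support) (hq' : q ∉ P), f q = ι ⟨q, hq, hq'⟩ := by
    intro q hq hq'
    rw [hf, dif_pos ⟨hq, hq'⟩]
  have hfinj : ∀ q ∈ γ.support, ∀ q' ∈ γ.support, f q = f q' → q = q' := by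
    intro q hq q' hq' he
    by_cases h4 : q ∈ P
    · by_cases h5 : q' ∈ P
      · rw [hfP q h4, hfP q' h5] at he
        exact he
      · rw [hfP q h4, hfs q' hq' h5] at he
        exact absurd (he ▸ hq) (ι ⟨q', hq', h5⟩).2
    · by_cases h5 : q' ∈ P
      · rw [hfP q' h5, hfs q hq h4] at he
        exact absurd (he.symm ▸ hq') (ι ⟨q, hq, h4⟩).2
      · rw [hfs q hq h4, hfs q' hq' h5] at he
        have h6 := ι.injective (Subtype.ext he)
        exact congrArg Subtype.val h6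
  obtain ⟨a, ha⟩ : ∃ a : Tup γ.support.card n, ∀ i, a i = γ.support.orderEmbOfFin rfl i :=
    ⟨(γ.support.orderEmbOfFin rfl).toEmbedding, fun _ => rfl⟩
  have ham : ∀ i, a i ∈ γ.support := by
    intro i
    rw [ha]
    exact Finset.orderEmbOfFin_mem _ _ _
  obtain ⟨b, hb⟩ : ∃ b : Tup γ.support.card n, ∀ i, b i = f (a i) :=
    ⟨⟨fun i => f (a i), fun i j hij => a.injective (hfinj _ (ham i) _ (ham j) hij)⟩,
      fun _ => rfl⟩
  obtain ⟨h, hhW, hh⟩ := TRI_exists hM h2 a b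
  have hag : ∀ u ∈ γ.support, (h : Equiv.Perm (Fin n)) u = f u := by
    intro u hu
    have h4 : u ∈ Set.range (γ.support.orderEmbOfFin rfl) := by
      rw [Finset.range_orderEmbOfFin]
      exact hu
    obtain ⟨i, hi⟩ := h4
    have h5 := DFunLike.congr_fun hh i
    rw [mv_apply, hb, ha, hi] at h5
    exact h5
  refine ⟨cmt g h, hg.cmt hhW, ?_⟩
  have h6 := TRI_perm γ (h : Equiv.Perm (Fin n)) P hP hPg
    (card_pos.1 (by omega)) (fun p hp => by rw [hag p (hP hp), hfP p hp])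
    (fun q hq hqP => by
      rw [hag q hq, hfs q hq hqP]
      exact (ι ⟨q, hq, hqP⟩).2)
  rw [hPc, hγ] at h6
  exact h6

end RD
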