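import Pool.Agent.H513R2.RD.Defs
import Pool.Agent.H14R2.RC.High
import Pool.Agent.H14R2.RC.Low
import Pool.Agent.H14R2.RC.S.EMB

namespace RD
open Finset RC14 Filter

lemma CHARALL_zero (n : ℕ) (W : Submodule ℂ (FA n)) (h : ∀ f ∈ W, ∑ g, f g = 0) :
    W ≤ HH 0 n := by
  intro f hf j hj κ
  obtain rfl : j = 0 := by omega
  ext a
  simp only [marg]
  rw [PiLp.zero_apply]
  refine Eq.trans ?_ (h f hf)
  refine Finset.sum_congr rfl fun g _ => ?_
  rw [if_pos]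
  exact Subsingleton.elim _ _

lemma CHARALL_exp3 : (1 / 25 : ℝ) ≤ Real.exp (-3) := by
  have h1 := Real.exp_one_lt_d9
  have h3 : Real.exp 3 = Real.exp 1 ^ 3 := by
    rw [← Real.exp_nat_mul]; congr 1; norm_num
  have h4 : Real.exp 3 ≤ 25 := by
    rw [h3]
    calc Real.exp 1 ^ 3 ≤ (2.7182818286 : ℝ) ^ 3 := by
          gcongr
      _ ≤ 25 := by norm_num
  rw [Real.exp_neg, one_div]
  exact inv_anti₀ (Real.exp_pos _) h4

/-- bound for `bb` in terms of `√n` -/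
lemma CHARALL_bb (n j j1 : ℕ) (c : ℝ) (hc : 0 < c) (hjn : j < n)
    (hn : c ^ 2 * (n : ℝ) ≤ ((n - j : ℕ) : ℝ)) :
    bb j j1 n (Nat.sqrt n) ≤ 2 * j / (c ^ 2 * n) + (1 / c ^ 2 + j1 / c) / Real.sqrt n := by
  have hn0 : (0 : ℝ) < n := by exact_mod_cast (by omega : 0 < n)
  have hs : 0 < Real.sqrt n := Real.sqrt_pos.mpr hn0
  have hss : Real.sqrt n * Real.sqrt n = n := Real.mul_self_sqrt hn0.le
  have hsn : ((Nat.sqrt n : ℕ) : ℝ) ≤ Real.sqrt n := by
    apply Real.le_sqrt_of_sq_le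
    exact_mod_cast Nat.sqrt_le' n
  have hm : (0 : ℝ) < ((n - j : ℕ) : ℝ) := lt_of_lt_of_le (by positivity) hn
  have hq : c * Real.sqrt n ≤ Real.sqrt ((n - j : ℕ) : ℝ) := by
    apply Real.le_sqrt_of_sq_le
    rw [mul_pow, Real.sq_sqrt hn0.le]
    exact hn
  unfold bb
  have a1 : 2 * (j : ℝ) / ((n - j : ℕ) : ℝ) ≤ 2 * j / (c ^ 2 * n) := by gcongr
  have a2 : ((Nat.sqrt n : ℕ) : ℝ) / ((n - j : ℕ) : ℝ) ≤ 1 / c ^ 2 / Real.sqrt n := by
    calc ((Nat.sqrt n : ℕ) : ℝ) / ((n - j : ℕ) : ℝ) ≤ Real.sqrt n / (c ^ 2 * n) := by gcongr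
      _ = 1 / c ^ 2 / Real.sqrt n := by
          rw [div_div, div_eq_div_iff (by positivity) (by positivity)]
          rw [one_mul, ← mul_assoc, mul_comm (Real.sqrt n) (c ^ 2), mul_assoc, hss]
  have a3 : (j1 : ℝ) / Real.sqrt ((n - j : ℕ) : ℝ) ≤ j1 / c / Real.sqrt n := by
    rw [div_div]
    gcongr
  rw [add_div]
  linarith

/-- uniform smallness of all normalised nontrivial characters at permutations with at most
`√n` fixed points -/
theorem CHARALL (κ : ℝ) (hκ : 0 < κ) : ∀ᶠ n : ℕ in atTop,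
    ∀ (W : Submodule ℂ (FA n)) (hW : Irr (RR n) W), (∀ f ∈ W, ∑ g, f g = 0) →
      ∀ g : Alt n, nfix (g : Equiv.Perm (Fin n)) ^ 2 ≤ n →
        ‖rchr (RR n) W hW.2.1 g‖ ≤ κ * Module.finrank ℂ W := by
  obtain ⟨J, hJ1, hJκ⟩ : ∃ J : ℕ, 1 ≤ J ∧ Real.exp (-(3 * J)) ≤ κ := by
    refine ⟨⌈1 / κ⌉₊ + 1, by omega, ?_⟩
    have h1 : 1 / κ ≤ ⌈1 / κ⌉₊ := Nat.le_ceil _
    have h2 := Real.add_one_le_exp (3 * ((⌈1 / κ⌉₊ + 1 : ℕ) : ℝ))
    have h3 : 1 / κ ≤ Real.exp (3 * ((⌈1 / κ⌉₊ + 1 : ℕ) : ℝ)) := by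
      refine le_trans ?_ h2
      push_cast
      have : (0 : ℝ) ≤ ⌈1 / κ⌉₊ := by positivity
      linarith
    rw [Real.exp_neg]
    exact inv_le_of_inv_le₀ hκ ((one_div κ).symm.le.trans h3)
  obtain ⟨m, hm⟩ : ∃ m : ℕ, 2 * (1 - 1 / 8400 : ℝ) ^ m ≤ Real.exp (-(6 * J)) := by
    obtain ⟨m, hm⟩ := exists_pow_lt_of_lt_one (show (0 : ℝ) < Real.exp (-(6 * J)) / 2 by positivity)
      (show (1 - 1 / 8400 : ℝ) < 1 by norm_num)
    exact ⟨m, by linarith⟩
  have hsq : ∀ S : ℝ, ∀ᶠ n : ℕ in atTop, S ≤ Real.sqrt n := fun S =>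
    (Real.tendsto_sqrt_atTop.comp tendsto_natCast_atTop_atTop).eventually_ge_atTop S
  filter_upwards [eventually_ge_atTop 1000, eventually_ge_atTop (100 * m ^ 2),
    eventually_ge_atTop (4 * J + 4), hsq (200 * (J + 2)), hsq ((8 * J + 6) / κ)]
    with n hn hnm hnJ hs1 hs2 W hW hW0 g hg
  have hn0 : (0 : ℝ) < n := by exact_mod_cast (by omega : 0 < n)
  have hs : 0 < Real.sqrt n := Real.sqrt_pos.mpr hn0
  have hss : Real.sqrt n * Real.sqrt n = n := Real.mul_self_sqrt hn0.le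
  have hJr : (1 : ℝ) ≤ J := by exact_mod_cast hJ1
  have hgF : nfix (g : Equiv.Perm (Fin n)) ≤ Nat.sqrt n := by
    rw [Nat.le_sqrt']
    exact hg
  have hfr : (0 : ℝ) ≤ Module.finrank ℂ W := by positivity
  by_cases h : W ≤ HH J n
  · have h2F : 2 * Nat.sqrt n ≤ n := by
      have h1 : Nat.sqrt n * Nat.sqrt n ≤ n := Nat.sqrt_le n
      have h2 : 2 ≤ Nat.sqrt n := by
        rw [Nat.le_sqrt]; omega
      nlinarith
    refine (MIDHIGH n J (Nat.sqrt n) m hn ?_ h2F hnm hm W hW h g hgF).trans ?_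
    · intro j hj hj2
      have hjn : 100 * j ≤ n := by omega
      have hjn' : (100 : ℝ) * j ≤ n := by exact_mod_cast hjn
      have e : ((n - j : ℕ) : ℝ) = n - j := by
        rw [Nat.cast_sub (by omega)]
      have := CHARALL_bb n j J (99 / 100) (by norm_num) (by omega) (by rw [e]; nlinarith)
      refine (this.trans ?_).trans CHARALL_exp3
      have b1 : 2 * (j : ℝ) / ((99 / 100) ^ 2 * n) ≤ 3 / 100 := by
        rw [div_le_iff₀ (by positivity)]
        nlinarith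
      have b2 : (1 / (99 / 100 : ℝ) ^ 2 + J / (99 / 100)) / Real.sqrt n ≤ 1 / 100 := by
        rw [div_le_iff₀ hs]
        have : (1 / (99 / 100 : ℝ) ^ 2 + J / (99 / 100)) ≤ 2 * (J + 2) := by
          norm_num
          linarith
        linarith
      linarith
    · gcongr
  · obtain ⟨j, hj1, hj2, U, hU, hUL, hdim, hchr⟩ := EMB n 0 J W hW (CHARALL_zero n W hW0) h
    rw [hchr g, ← hdim]
    have hj3 : 2 * j + 2 ≤ n := by omega
    refine (CHARB j 1 n (Nat.sqrt n) hj3 (by omega) U hU.2.1 hUL g hgF).trans ?_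
    have hjn' : (4 : ℝ) * j ≤ n := by exact_mod_cast (by omega : 4 * j ≤ n)
    have hjJ : (j : ℝ) ≤ J := by exact_mod_cast hj2
    have e : ((n - j : ℕ) : ℝ) = n - j := by
      rw [Nat.cast_sub (by omega)]
    have h5 : bb j 1 n (Nat.sqrt n) ≤ κ := by
      have := CHARALL_bb n j 1 (1 / 2) (by norm_num) (by omega) (by rw [e]; linarith)
      refine this.trans ?_
      have hs1' : 1 ≤ Real.sqrt n := by nlinarith
      have b1 : 2 * (j : ℝ) / ((1 / 2) ^ 2 * n) ≤ 8 * J / Real.sqrt n := by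
        rw [div_le_div_iff₀ (by positivity) hs]
        have : Real.sqrt n ≤ n := by nlinarith
        have hj0 : (0 : ℝ) ≤ j := by positivity
        calc 2 * (j : ℝ) * Real.sqrt n ≤ 2 * J * n := by gcongr
          _ = 8 * J * ((1 / 2) ^ 2 * n) := by ring
      have b2 : (1 / (1 / 2 : ℝ) ^ 2 + ((1 : ℕ) : ℝ) / (1 / 2)) / Real.sqrt n = 6 / Real.sqrt n := by
        norm_num
      rw [b2]
      have b3 : (8 * J + 6) / Real.sqrt n ≤ κ := by
        rw [div_le_iff₀ hs]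
        rw [div_le_iff₀ hκ] at hs2
        linarith
      rw [add_div] at b3
      linarith
    rw [pow_one]
    gcongr

end RD
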