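import Pool.Agent.H513R2.RD.Defs
import Pool.Agent.H930R2.RD.Cyc

namespace RD
open Finset RC14

theorem FIXPOW_rel {n m : ℕ} (a : Fin n) :
    n * #{κ : Tup (m + 1) n | κ 0 = a} = Fintype.card (Tup (m + 1) n) := by
  classical
  have h1 : ∀ b : Fin n, #{κ : Tup (m + 1) n | κ 0 = b} = #{κ : Tup (m + 1) n | κ 0 = a} := by
    intro b
    apply Finset.card_bij' (fun κ _ => mv (Equiv.swap a b) κ) (fun κ _ => mv (Equiv.swap a b) κ)
    · intro κ hκ
      rw [mem_filter] at hκ ⊢
      refine ⟨mem_univ _, ?_⟩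
      rw [mv_apply, hκ.2]
      exact Equiv.swap_apply_right a b
    · intro κ hκ
      rw [mem_filter] at hκ ⊢
      refine ⟨mem_univ _, ?_⟩
      rw [mv_apply, hκ.2]
      exact Equiv.swap_apply_left a b
    · intro κ _
      rw [← mv_mul]
      simp
    · intro κ _
      rw [← mv_mul]
      simp
  have h2 := Finset.card_eq_sum_card_fiberwise (f := fun κ : Tup (m + 1) n => κ 0)
    (s := Finset.univ) (t := Finset.univ) (fun _ _ => Finset.mem_coe.2 (mem_univ _))
  rw [← Finset.card_univ, h2, Finset.sum_congr rfl fun b _ => h1 b, Finset.sum_const,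
    Finset.card_univ, Fintype.card_fin, smul_eq_mul]

theorem FIXPOW_point {n m : ℕ} (h : m + 3 ≤ n) (a : Fin n) :
    n * Nat.card {y : Alt n // Function.minimalPeriod (y : Equiv.Perm (Fin n)) a = m + 1} ≤
      Fintype.card (Alt n) := by
  classical
  obtain ⟨M, hM⟩ : ∃ M, M = Fintype.card (Tup (m + 1) n) := ⟨_, rfl⟩
  have hMpos : 0 < M := by
    rw [hM, Fintype.card_pos_iff]
    exact ⟨Fin.castLEEmb (by omega)⟩
  -- the injection
  let F : {y : Alt n // Function.minimalPeriod (y : Equiv.Perm (Fin n)) a = m + 1} →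
      (Σ κ : {κ : Tup (m + 1) n // κ 0 = a}, {g : Alt n // mv (g : Equiv.Perm (Fin n)) κ.1 =
        (finRotate (m + 1)).toEmbedding.trans κ.1}) := fun y =>
    ⟨⟨⟨fun i : Fin (m + 1) => ((y.1 : Equiv.Perm (Fin n)) ^ (i : ℕ)) a,
      (cyc_orbit _ a y.2).1⟩, rfl⟩, ⟨y.1, by
        ext i
        congr 1
        have h1 := (cyc_orbit _ a y.2).2 i
        change (y.1 : Equiv.Perm (Fin n)) (((y.1 : Equiv.Perm (Fin n)) ^ (i : ℕ)) a) =
          ((y.1 : Equiv.Perm (Fin n)) ^ ((finRotate (m + 1) i : Fin (m + 1)) : ℕ)) a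
        rw [h1, finRotate_succ_apply]⟩⟩
  have hF : Function.Injective F := by
    intro y y' hyy
    have h1 := congrArg (fun s => (s.2.1 : Alt n)) hyy
    exact Subtype.ext h1
  have h1 := Nat.card_le_card_of_injective F hF
  rw [Nat.card_sigma] at h1
  have h2 : ∀ κ : {κ : Tup (m + 1) n // κ 0 = a},
      Nat.card {g : Alt n // mv (g : Equiv.Perm (Fin n)) κ.1 =
        (finRotate (m + 1)).toEmbedding.trans κ.1} * M = Fintype.card (Alt n) := by
    intro κ
    rw [hM]
    exact cyc_card (by omega) _ _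
  have h3 : Nat.card {y : Alt n // Function.minimalPeriod (y : Equiv.Perm (Fin n)) a = m + 1} * M ≤
      #{κ : Tup (m + 1) n | κ 0 = a} * Fintype.card (Alt n) := by
    refine (Nat.mul_le_mul_right M h1).trans ?_
    rw [Finset.sum_mul, Finset.sum_congr rfl fun κ _ => h2 κ, Finset.sum_const, smul_eq_mul,
      Finset.card_univ, Fintype.card_subtype]
  have h4 := FIXPOW_rel (m := m) a
  rw [← hM] at h4
  apply Nat.le_of_mul_le_mul_right _ hMpos
  calc n * Nat.card {y : Alt n // Function.minimalPeriod (y : Equiv.Perm (Fin n)) a = m + 1} * M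
      = n * (Nat.card {y : Alt n //
        Function.minimalPeriod (y : Equiv.Perm (Fin n)) a = m + 1} * M) := by ring
    _ ≤ n * (#{κ : Tup (m + 1) n | κ 0 = a} * Fintype.card (Alt n)) := Nat.mul_le_mul_left _ h3
    _ = n * #{κ : Tup (m + 1) n | κ 0 = a} * Fintype.card (Alt n) := by ring
    _ = Fintype.card (Alt n) * M := by rw [h4, mul_comm]

/-- average number of fixed points of `y ^ d` -/
theorem FIXPOW (n d : ℕ) (hd : 1 ≤ d) (hn : d + 2 ≤ n) :
    ∑ y : Alt n, nfix ((y : Equiv.Perm (Fin n)) ^ d) ≤ d * Fintype.card (Alt n) := by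
  classical
  have h1 : ∑ y : Alt n, nfix ((y : Equiv.Perm (Fin n)) ^ d) =
      ∑ a : Fin n, #{y : Alt n | ((y : Equiv.Perm (Fin n)) ^ d) a = a} :=
    Finset.sum_card_bipartiteAbove_eq_sum_card_bipartiteBelow
      (fun (y : Alt n) (a : Fin n) => ((y : Equiv.Perm (Fin n)) ^ d) a = a)
  have h2 : ∀ a : Fin n, n * #{y : Alt n | ((y : Equiv.Perm (Fin n)) ^ d) a = a} ≤
      d * Fintype.card (Alt n) := by
    intro a
    have h3 : (Finset.univ.filter fun y : Alt n => ((y : Equiv.Perm (Fin n)) ^ d) a = a) ⊆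
        (Nat.divisors d).biUnion fun m =>
          Finset.univ.filter fun y : Alt n =>
            Function.minimalPeriod (y : Equiv.Perm (Fin n)) a = m := by
      intro y hy
      rw [mem_filter] at hy
      rw [mem_biUnion]
      refine ⟨_, ?_, mem_filter.2 ⟨mem_univ _, rfl⟩⟩
      rw [Nat.mem_divisors]
      refine ⟨?_, by omega⟩
      apply Function.IsPeriodicPt.minimalPeriod_dvd
      unfold Function.IsPeriodicPt Function.IsFixedPt
      rw [← Equiv.Perm.coe_pow]
      exact hy.2
    have h4 := (Finset.card_le_card h3).trans Finset.card_biUnion_le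
    calc n * #{y : Alt n | ((y : Equiv.Perm (Fin n)) ^ d) a = a}
        ≤ n * ∑ m ∈ Nat.divisors d, #{y : Alt n |
          Function.minimalPeriod (y : Equiv.Perm (Fin n)) a = m} := Nat.mul_le_mul_left _ h4
      _ = ∑ m ∈ Nat.divisors d, n * #{y : Alt n |
          Function.minimalPeriod (y : Equiv.Perm (Fin n)) a = m} := Finset.mul_sum _ _ _
      _ ≤ ∑ m ∈ Nat.divisors d, Fintype.card (Alt n) := by
        apply Finset.sum_le_sum
        intro m hm
        have hm1 := Nat.pos_of_mem_divisors hm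
        have hm2 := Nat.divisor_le hm
        obtain ⟨m', rfl⟩ : ∃ m', m = m' + 1 := ⟨m - 1, by omega⟩
        have h5 := FIXPOW_point (n := n) (m := m') (by omega) a
        rw [Nat.card_eq_fintype_card, Fintype.card_subtype] at h5
        exact h5
      _ = #(Nat.divisors d) * Fintype.card (Alt n) := by rw [Finset.sum_const, smul_eq_mul]
      _ ≤ d * Fintype.card (Alt n) := Nat.mul_le_mul_right _ (Nat.card_divisors_le_self d)
  rw [h1]
  apply Nat.le_of_mul_le_mul_left _ (show 0 < n by omega)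
  rw [Finset.mul_sum]
  refine (Finset.sum_le_sum fun a _ => h2 a).trans (le_of_eq ?_)
  rw [Finset.sum_const, Finset.card_univ, Fintype.card_fin, smul_eq_mul]

end RD
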