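import Pool.Agent.H513R2.RD.S.CHARALL
import Pool.Agent.H513R2.RD.S.FIXPOW
import Pool.Agent.H375R2.RC.DECOMP
import Pool.Agent.H14R2.RC.S.HSL

namespace RD
open scoped InnerProductSpace
open Finset RC14 Filter

section
variable {G : Type*} [Group G] [Fintype G]
variable {V : Type*} [NormedAddCommGroup V] [InnerProductSpace ℂ V] [FiniteDimensional ℂ V]

omit [Fintype G] in
/-- the trivial bound of a character -/
theorem COVA_chr_le (ρ : G →* (V ≃ₗᵢ[ℂ] V)) (g : G) : ‖chr ρ g‖ ≤ Module.finrank ℂ V := by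
  unfold chr
  rw [LinearMap.trace_eq_sum_inner _ (stdOrthonormalBasis ℂ V)]
  refine (norm_sum_le _ _).trans ?_
  have h1 : ∀ i, ‖⟪(stdOrthonormalBasis ℂ V) i, op ρ g ((stdOrthonormalBasis ℂ V) i)⟫_ℂ‖ ≤ 1 := by
    intro i
    refine (norm_inner_le_norm _ _).trans ?_
    rw [op_apply, LinearIsometryEquiv.norm_map, OrthonormalBasis.norm_eq_one]
    norm_num
  refine (Finset.sum_le_sum fun i _ => h1 i).trans ?_
  simp

omit [Fintype G] [FiniteDimensional ℂ V] in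
theorem COVA_irr_res (ρ : G →* (V ≃ₗᵢ[ℂ] V)) (W : Submodule ℂ V) (hW : Irr ρ W) :
    Irr (res ρ W hW.2.1) ⊤ := by
  refine ⟨?_, ?_, ?_⟩
  · intro h
    apply hW.1
    rw [Submodule.eq_bot_iff]
    intro v hv
    have : (⟨v, hv⟩ : W) ∈ (⊤ : Submodule ℂ W) := Submodule.mem_top
    rw [h, Submodule.mem_bot] at this
    exact congrArg Subtype.val this
  · intro g v _
    exact Submodule.mem_top
  · intro U _ hU
    have h1 : U.map W.subtype ≤ W := by
      rintro _ ⟨u, _, rfl⟩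
      exact u.2
    have h2 : Inv ρ (U.map W.subtype) := by
      rintro g _ ⟨u, hu, rfl⟩
      exact ⟨res ρ W hW.2.1 g u, hU g u hu, rfl⟩
    rcases hW.2.2 _ h1 h2 with h | h
    · left
      rw [Submodule.eq_bot_iff]
      intro u hu
      have h3 : W.subtype u ∈ U.map W.subtype := ⟨u, hu, rfl⟩
      rw [h, Submodule.mem_bot] at h3
      exact Subtype.ext h3
    · right
      rw [Submodule.eq_top_iff']
      intro u
      have h3 : (u : V) ∈ U.map W.subtype := by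
        rw [h]
        exact u.2
      obtain ⟨u', hu', he⟩ := h3
      have : u' = u := Subtype.ext he
      rwa [← this]

/-- the average of the operators of the `d`-th powers on an irreducible representation -/
theorem COVA_top (ρ : G →* (V ≃ₗᵢ[ℂ] V)) (hirr : Irr ρ ⊤) (d : ℕ) (η : ℝ)
    (h : ∑ y : G, ‖chr ρ (y ^ d)‖ ≤ η * Fintype.card G * Module.finrank ℂ V) (v : V) :
    2 * Fintype.card G * (1 - η) * ‖v‖ ^ 2 ≤ ∑ y : G, ‖ρ (y ^ d) v - v‖ ^ 2 := by
  have hnt : Nontrivial V := by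
    by_contra h
    rw [not_nontrivial_iff_subsingleton] at h
    exact hirr.1 (Subsingleton.elim _ _)
  have hfr : (0 : ℝ) < Module.finrank ℂ V := by
    exact_mod_cast Module.finrank_pos
  obtain ⟨B, hB⟩ : ∃ B : Module.End ℂ V, B = ∑ y : G, op ρ (y ^ d) := ⟨_, rfl⟩
  have hcomm : ∀ g, op ρ g * B = B * op ρ g := by
    intro g
    rw [hB, Finset.mul_sum, Finset.sum_mul]
    have h1 : ∀ y, op ρ g * op ρ (y ^ d) = op ρ ((g * y * g⁻¹) ^ d) * op ρ g := by
      intro y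
      rw [← op_mul, ← op_mul, conj_pow]
      congr 1
      group
    rw [Finset.sum_congr rfl fun y _ => h1 y]
    exact Fintype.sum_equiv (MulAut.conj g).toEquiv _ _ fun y => rfl
  have hS := SCHUR ρ hirr B hcomm
  have htr : ‖LinearMap.trace ℂ V B‖ ≤ η * Fintype.card G * Module.finrank ℂ V := by
    refine le_trans ?_ h
    rw [hB, map_sum]
    exact norm_sum_le _ _
  obtain ⟨μ, hμ⟩ : ∃ μ : ℂ, μ = LinearMap.trace ℂ V B / (Module.finrank ℂ V : ℂ) := ⟨_, rfl⟩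
  rw [← hμ] at hS
  have hμn : ‖μ‖ ≤ η * Fintype.card G := by
    rw [hμ, norm_div, Complex.norm_natCast, div_le_iff₀ hfr]
    exact htr
  have h2 : ∀ y : G, ‖ρ (y ^ d) v - v‖ ^ 2 = 2 * ‖v‖ ^ 2 - 2 * (⟪ρ (y ^ d) v, v⟫_ℂ).re := by
    intro y
    have h := norm_sub_sq (𝕜 := ℂ) (ρ (y ^ d) v) v
    rw [LinearIsometryEquiv.norm_map] at h
    have h2 : RCLike.re ⟪ρ (y ^ d) v, v⟫_ℂ = (⟪ρ (y ^ d) v, v⟫_ℂ).re := rfl
    rw [h2] at h
    linarith
  rw [Finset.sum_congr rfl fun y _ => h2 y, Finset.sum_sub_distrib, Finset.sum_const,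
    Finset.card_univ, nsmul_eq_mul, ← Finset.mul_sum]
  have h3 : ∑ y : G, (⟪ρ (y ^ d) v, v⟫_ℂ).re = (⟪B v, v⟫_ℂ).re := by
    rw [hB, LinearMap.sum_apply, sum_inner, Complex.re_sum]
    rfl
  have h4 : (⟪B v, v⟫_ℂ).re ≤ η * Fintype.card G * ‖v‖ ^ 2 := by
    rw [hS]
    calc (⟪(μ • (1 : Module.End ℂ V)) v, v⟫_ℂ).re
        ≤ ‖⟪(μ • (1 : Module.End ℂ V)) v, v⟫_ℂ‖ := Complex.re_le_norm _
      _ ≤ ‖(μ • (1 : Module.End ℂ V)) v‖ * ‖v‖ := norm_inner_le_norm _ _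
      _ = ‖μ‖ * ‖v‖ ^ 2 := by
          rw [LinearMap.smul_apply, Module.End.one_apply, norm_smul]
          ring
      _ ≤ _ := mul_le_mul_of_nonneg_right hμn (by positivity)
  rw [h3]
  nlinarith

theorem COVA_irr (ρ : G →* (V ≃ₗᵢ[ℂ] V)) (W : Submodule ℂ V) (hW : Irr ρ W) (d : ℕ) (η : ℝ)
    (h : ∑ y : G, ‖rchr ρ W hW.2.1 (y ^ d)‖ ≤ η * Fintype.card G * Module.finrank ℂ W) :
    ∀ v ∈ W, 2 * Fintype.card G * (1 - η) * ‖v‖ ^ 2 ≤ ∑ y : G, ‖ρ (y ^ d) v - v‖ ^ 2 := by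
  intro v hv
  have h1 := COVA_top (res ρ W hW.2.1) (COVA_irr_res ρ W hW) d η h ⟨v, hv⟩
  refine h1.trans (le_of_eq ?_)
  refine Finset.sum_congr rfl fun y _ => ?_
  rw [Submodule.coe_norm, Submodule.coe_sub, res_apply]

end

/-- the characters of the `d`-th powers are small on average -/
theorem COVA_avg (d : ℕ) (hd : 1 ≤ d) (η : ℝ) (hη : 0 < η) : ∀ᶠ n : ℕ in atTop,
    ∀ (W : Submodule ℂ (FA n)) (hW : Irr (RR n) W), (∀ f ∈ W, ∑ g, f g = 0) →
      ∑ y : Alt n, ‖rchr (RR n) W hW.2.1 (y ^ d)‖ ≤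
        η * Fintype.card (Alt n) * Module.finrank ℂ W := by
  have hev : ∀ᶠ n : ℕ in atTop, 2 * (d : ℝ) / η ≤ Real.sqrt n :=
    (Real.tendsto_sqrt_atTop.comp tendsto_natCast_atTop_atTop).eventually_ge_atTop _
  filter_upwards [CHARALL (η / 2) (by positivity), eventually_ge_atTop (d + 2), hev]
    with n h1 h2 h3 W hW hW0
  classical
  have hn0 : (0 : ℝ) < n := by exact_mod_cast (by omega : 0 < n)
  have hs : 0 < Real.sqrt n := Real.sqrt_pos.mpr hn0
  have hfr : (0 : ℝ) ≤ Module.finrank ℂ W := by positivity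
  have hA : (0 : ℝ) ≤ Fintype.card (Alt n) := by positivity
  have h4 : ∀ y : Alt n, ‖rchr (RR n) W hW.2.1 (y ^ d)‖ ≤
      η / 2 * Module.finrank ℂ W +
        (nfix ((y : Equiv.Perm (Fin n)) ^ d) : ℝ) * (Module.finrank ℂ W / Real.sqrt n) := by
    intro y
    have hnn : (0 : ℝ) ≤ (nfix ((y : Equiv.Perm (Fin n)) ^ d) : ℝ) *
        (Module.finrank ℂ W / Real.sqrt n) := by positivity
    by_cases hy : nfix ((y : Equiv.Perm (Fin n)) ^ d) ^ 2 ≤ n
    · have := h1 W hW hW0 (y ^ d) (by rwa [Subgroup.coe_pow])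
      linarith
    · have h5 : ‖rchr (RR n) W hW.2.1 (y ^ d)‖ ≤ Module.finrank ℂ W := COVA_chr_le _ _
      have h6 : Real.sqrt n ≤ nfix ((y : Equiv.Perm (Fin n)) ^ d) := by
        rw [Real.sqrt_le_left (by positivity)]
        push Not at hy
        exact_mod_cast hy.le
      have h7 : (Module.finrank ℂ W : ℝ) ≤ (nfix ((y : Equiv.Perm (Fin n)) ^ d) : ℝ) *
          (Module.finrank ℂ W / Real.sqrt n) := by
        calc (Module.finrank ℂ W : ℝ) = Real.sqrt n * (Module.finrank ℂ W / Real.sqrt n) := by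
              field_simp
          _ ≤ _ := mul_le_mul_of_nonneg_right h6 (by positivity)
      have h8 : 0 ≤ η / 2 * (Module.finrank ℂ W : ℝ) := by positivity
      linarith
  have h5 : (∑ y : Alt n, (nfix ((y : Equiv.Perm (Fin n)) ^ d) : ℝ)) ≤
      d * Fintype.card (Alt n) := by
    exact_mod_cast FIXPOW n d hd h2
  calc ∑ y : Alt n, ‖rchr (RR n) W hW.2.1 (y ^ d)‖
      ≤ ∑ y : Alt n, (η / 2 * Module.finrank ℂ W +
        (nfix ((y : Equiv.Perm (Fin n)) ^ d) : ℝ) * (Module.finrank ℂ W / Real.sqrt n)) :=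
        Finset.sum_le_sum fun y _ => h4 y
    _ = Fintype.card (Alt n) * (η / 2 * Module.finrank ℂ W) +
        (∑ y : Alt n, (nfix ((y : Equiv.Perm (Fin n)) ^ d) : ℝ)) *
          (Module.finrank ℂ W / Real.sqrt n) := by
        rw [Finset.sum_add_distrib, Finset.sum_const, Finset.card_univ, nsmul_eq_mul,
          Finset.sum_mul]
    _ ≤ Fintype.card (Alt n) * (η / 2 * Module.finrank ℂ W) +
        (d * Fintype.card (Alt n)) * (Module.finrank ℂ W / Real.sqrt n) := by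
        have : (0 : ℝ) ≤ Module.finrank ℂ W / Real.sqrt n := by positivity
        linarith [mul_le_mul_of_nonneg_right h5 this]
    _ = Fintype.card (Alt n) * Module.finrank ℂ W * (η / 2 + d / Real.sqrt n) := by
        ring
    _ ≤ Fintype.card (Alt n) * Module.finrank ℂ W * η := by
        apply mul_le_mul_of_nonneg_left _ (by positivity)
        have h6 : (d : ℝ) / Real.sqrt n ≤ η / 2 := by
          rw [div_le_iff₀ hs]
          rw [div_le_iff₀ hη] at h3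
          linarith
        linarith
    _ = _ := by ring

/-- spectral bound for the average of the right translations by `y ^ d` -/
theorem COVA (d : ℕ) (hd : 1 ≤ d) (η : ℝ) (hη : 0 < η) : ∀ᶠ n : ℕ in atTop,
    ∀ f : Alt n → ℝ, ∑ v, f v = 0 →
      ∑ y : Alt n, ∑ v, f v * f (v * y ^ d) ≤ η * Fintype.card (Alt n) * ∑ v, f v ^ 2 := by
  filter_upwards [COVA_avg d hd η hη] with n h1 f hf
  classical
  obtain ⟨M, hM⟩ : ∃ M : Submodule ℂ (FA n), ∀ u, u ∈ M ↔ ∑ g, u g = 0 := by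
    refine ⟨{ carrier := {u | ∑ g, u g = 0}, zero_mem' := ?_, add_mem' := ?_, smul_mem' := ?_ },
      fun _ => Iff.rfl⟩
    · intro u v hu hv
      rw [Set.mem_setOf_eq] at hu hv ⊢
      simp only [PiLp.add_apply]
      rw [Finset.sum_add_distrib, hu, hv, add_zero]
    · rw [Set.mem_setOf_eq]
      simp
    · intro c u hu
      rw [Set.mem_setOf_eq] at hu ⊢
      simp only [PiLp.smul_apply, smul_eq_mul]
      rw [← Finset.mul_sum, hu, mul_zero]
  have hInv : Inv (RR n) M := by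
    intro g u hu
    rw [hM] at hu ⊢
    simp_rw [RR_apply]
    rw [← hu]
    exact Equiv.sum_comp (Equiv.mulRight g) (fun h => u h)
  obtain ⟨N, W, _, hW, hmain⟩ := DECOMP (RR n) M hInv
  obtain ⟨e, he⟩ : ∃ e : Alt n ≃ Fin (Fintype.card (Alt n)), e = Fintype.equivFin _ := ⟨_, rfl⟩
  have hsum : ∀ F : Alt n → ℝ, ∑ t, (1 : ℝ) * F (e.symm t) = ∑ y, F y := by
    intro F
    simp_rw [one_mul]
    exact Equiv.sum_comp e.symm F
  have h2 := hmain (Fintype.card (Alt n)) (fun t => (e.symm t) ^ d) (fun _ => 1)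
    (2 * Fintype.card (Alt n) * (1 - η)) (fun _ => zero_le_one) (by
      intro i v hv
      have h3 := COVA_irr (RR n) (W i) (hW i).1 d η
        (h1 (W i) (hW i).1 (fun u hu => (hM u).1 ((hW i).2 hu))) v hv
      rw [← hsum fun y => ‖RR n (y ^ d) v - v‖ ^ 2] at h3
      exact h3)
  have hfM : (WithLp.toLp 2 fun g => (f g : ℂ) : FA n) ∈ M := by
    rw [hM]
    have : ∑ g, ((f g : ℝ) : ℂ) = 0 := by
      rw [← Complex.ofReal_sum, hf, Complex.ofReal_zero]
    exact this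
  have h3 := h2 _ hfM
  rw [hsum fun y => ‖RR n (y ^ d) (WithLp.toLp 2 fun g => (f g : ℂ) : FA n) -
    (WithLp.toLp 2 fun g => (f g : ℂ) : FA n)‖ ^ 2] at h3
  have hnorm : ‖(WithLp.toLp 2 fun g => (f g : ℂ) : FA n)‖ ^ 2 = ∑ v, f v ^ 2 := by
    rw [EuclideanSpace.norm_sq_eq]
    refine Finset.sum_congr rfl fun v _ => ?_
    change ‖((f v : ℝ) : ℂ)‖ ^ 2 = _
    rw [Complex.norm_real, Real.norm_eq_abs, sq_abs]
  have hen : ∀ y : Alt n, ‖RR n (y ^ d) (WithLp.toLp 2 fun g => (f g : ℂ) : FA n) -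
      (WithLp.toLp 2 fun g => (f g : ℂ) : FA n)‖ ^ 2 =
      2 * ∑ v, f v ^ 2 - 2 * ∑ v, f v * f (v * y ^ d) := by
    intro y
    rw [EuclideanSpace.norm_sq_eq]
    have h4 : ∀ v, ‖(RR n (y ^ d) (WithLp.toLp 2 fun g => (f g : ℂ) : FA n) -
      (WithLp.toLp 2 fun g => (f g : ℂ) : FA n)) v‖ ^ 2 =
        f (v * y ^ d) ^ 2 + f v ^ 2 - 2 * (f v * f (v * y ^ d)) := by
      intro v
      rw [PiLp.sub_apply, RR_apply]
      change ‖((f (v * y ^ d) : ℝ) : ℂ) - ((f v : ℝ) : ℂ)‖ ^ 2 = _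
      rw [← Complex.ofReal_sub, Complex.norm_real, Real.norm_eq_abs, sq_abs]
      ring
    rw [Finset.sum_congr rfl fun v _ => h4 v, Finset.sum_sub_distrib, Finset.sum_add_distrib,
      ← Finset.mul_sum]
    have h5 : ∑ v, f (v * y ^ d) ^ 2 = ∑ v, f v ^ 2 :=
      Equiv.sum_comp (Equiv.mulRight (y ^ d)) (fun v => f v ^ 2)
    rw [h5]
    ring
  rw [hnorm, Finset.sum_congr rfl fun y _ => hen y, Finset.sum_sub_distrib, Finset.sum_const,
    Finset.card_univ, nsmul_eq_mul, ← Finset.mul_sum] at h3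
  linarith

end RD
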