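import Pool.Agent.H513R2.RD.S.STEP

namespace RD
open Finset RC14

/-- iteration of the commutator step -/
theorem ITER (n k m ℓ c L T : ℕ) (x : Fin k → Alt n) (hM : Mixed x m ℓ) (g : Alt n)
    (hg : WL x L g) (hc : 1 ≤ c) (hcm : 2 * c + 1 ≤ m) (h1 : c ≤ sz g)
    (h2 : 192 * sz g ≤ n) (hT : n < 2 ^ (2 ^ T)) :
    ∃ g' : Alt n, WL x (4 ^ T * (L + 2 * ℓ)) g' ∧ c ≤ sz g' ∧ sz g' ≤ 12 * c := by
  have key : ∀ t : ℕ, ∃ g' : Alt n, WL x (4 ^ t * (L + 2 * ℓ) - 2 * ℓ) g' ∧ c ≤ sz g' ∧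
      192 * sz g' ≤ n ∧ (sz g' ≤ 12 * c ∨ 96 * sz g' * 2 ^ (2 ^ t) ≤ n) := by
    intro t
    induction t with
    | zero => exact ⟨g, by simpa using hg, h1, h2, Or.inr (by simpa using by omega)⟩
    | succ t ih =>
      obtain ⟨g₁, hw, hc1, hn1, hor⟩ := ih
      have hpow : 1 ≤ 4 ^ t := Nat.one_le_pow _ _ (by norm_num)
      have hle : 2 * ℓ ≤ 4 ^ t * (L + 2 * ℓ) := by nlinarith
      have hlen : 4 * (4 ^ t * (L + 2 * ℓ) - 2 * ℓ) + 4 * ℓ ≤
          4 ^ (t + 1) * (L + 2 * ℓ) - 2 * ℓ := by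
        rw [pow_succ]
        have : 4 ^ t * 4 * (L + 2 * ℓ) = 4 * (4 ^ t * (L + 2 * ℓ)) := by ring
        omega
      by_cases hs : sz g₁ ≤ 12 * c
      · refine ⟨g₁, hw.mono ?_, hc1, hn1, Or.inl hs⟩
        omega
      · have h96 : 96 * sz g₁ * 2 ^ (2 ^ t) ≤ n := hor.resolve_left hs
        obtain ⟨g₂, hw2, hc2, hn2⟩ := STEP n k m ℓ c _ x hM g₁ hw hc hcm (by omega) hn1
        have hn : 0 < n := by omega
        have hsz : n * sz g₂ ≤ 6 * c * n + 48 * sz g₁ ^ 2 := hn2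
        refine ⟨g₂, hw2.mono hlen, hc2, ?_, ?_⟩
        · -- 192 sz g₂ ≤ n
          have h3 : 192 * (n * sz g₂) ≤ n * n := by
            have : sz g₁ * (192 * sz g₁) ≤ sz g₁ * n := Nat.mul_le_mul_left _ hn1
            have h12 : 12 * c < sz g₁ := by omega
            nlinarith
          have h4 : n * (192 * sz g₂) ≤ n * n := by
            calc n * (192 * sz g₂) = 192 * (n * sz g₂) := by ring
              _ ≤ n * n := h3
          exact Nat.le_of_mul_le_mul_left h4 hn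
        · by_cases hs2 : sz g₂ ≤ 12 * c
          · exact Or.inl hs2
          · right
            have h12 : 12 * c < sz g₂ := by omega
            have h5 : n * sz g₂ ≤ 96 * sz g₁ ^ 2 := by nlinarith
            -- 96 s₂ X^2 * n ≤ (96 s₁ X)^2 ≤ n^2
            have h6 : (96 * sz g₁ * 2 ^ (2 ^ t)) ^ 2 ≤ n ^ 2 := Nat.pow_le_pow_left h96 2
            have h7 : (96 * sz g₂ * 2 ^ (2 ^ (t + 1))) * n ≤ n * n := by
              have e1 : (2 : ℕ) ^ (2 ^ (t + 1)) = (2 ^ (2 ^ t)) ^ 2 := by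
                rw [← pow_mul, pow_succ]
              rw [e1]
              calc (96 * sz g₂ * (2 ^ (2 ^ t)) ^ 2) * n
                  = 96 * (n * sz g₂) * (2 ^ (2 ^ t)) ^ 2 := by ring
                _ ≤ 96 * (96 * sz g₁ ^ 2) * (2 ^ (2 ^ t)) ^ 2 := by gcongr
                _ = (96 * sz g₁ * 2 ^ (2 ^ t)) ^ 2 := by ring
                _ ≤ n ^ 2 := h6
                _ = n * n := by ring
            exact Nat.le_of_mul_le_mul_right h7 hn
  obtain ⟨g', hw, h3, h4, h5⟩ := key T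
  refine ⟨g', hw.mono (Nat.sub_le _ _), h3, ?_⟩
  rcases h5 with h5 | h5
  · exact h5
  · exfalso
    have : 1 ≤ sz g' := by omega
    have h6 : 2 ^ (2 ^ T) ≤ 96 * sz g' * 2 ^ (2 ^ T) := by
      have : 1 ≤ 96 * sz g' := by omega
      nlinarith
    omega

end RD
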