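import Pool.Agent.H513R2.RD.Defs
import Pool.Agent.H930R2.RD.Cyc

namespace RD
open Finset RC14

/-- relabelling two points -/
theorem LCYC_perm {n : ℕ} {a b a' b' : Fin n} (hab : a ≠ b) (hab' : a' ≠ b') :
    ∃ τ : Equiv.Perm (Fin n), τ a = a' ∧ τ b = b' := by
  refine ⟨Equiv.swap (Equiv.swap a a' b) b' * Equiv.swap a a', ?_, ?_⟩
  · rw [Equiv.Perm.mul_apply, Equiv.swap_apply_left, Equiv.swap_apply_of_ne_of_ne _ hab']
    intro h
    have h1 : Equiv.swap a a' a = a' := Equiv.swap_apply_left _ _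
    exact hab ((Equiv.swap a a').injective (h1.trans h))
  · rw [Equiv.Perm.mul_apply, Equiv.swap_apply_left]

theorem LCYC_rel {n r : ℕ} {s t : Fin r} (hst : s ≠ t) {a b : Fin n} (hab : a ≠ b) :
    n * (n - 1) * #{κ : Tup r n | κ s = a ∧ κ t = b} = Fintype.card (Tup r n) := by
  classical
  have h1 : ∀ p ∈ (Finset.univ : Finset (Fin n)).offDiag,
      #{κ : Tup r n | (κ s, κ t) = p} = #{κ : Tup r n | κ s = a ∧ κ t = b} := by
    rintro ⟨a', b'⟩ hp
    have hab' : a' ≠ b' := (Finset.mem_offDiag.1 hp).2.2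
    obtain ⟨τ, hτ1, hτ2⟩ := LCYC_perm hab' hab
    apply Finset.card_bij' (fun κ _ => mv τ κ) (fun κ _ => mv τ⁻¹ κ)
    · intro κ hκ
      rw [mem_filter, Prod.mk.injEq] at hκ
      rw [mem_filter]
      refine ⟨mem_univ _, ?_, ?_⟩
      · rw [mv_apply, hκ.2.1, hτ1]
      · rw [mv_apply, hκ.2.2, hτ2]
    · intro κ hκ
      rw [mem_filter] at hκ
      rw [mem_filter, Prod.mk.injEq]
      refine ⟨mem_univ _, ?_, ?_⟩
      · rw [mv_apply, hκ.2.1, ← hτ1]
        simp
      · rw [mv_apply, hκ.2.2, ← hτ2]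
        simp
    · intro κ _
      rw [← mv_mul]
      simp
    · intro κ _
      rw [← mv_mul]
      simp
  have h2 := Finset.card_eq_sum_card_fiberwise (f := fun κ : Tup r n => (κ s, κ t))
    (s := Finset.univ) (t := (Finset.univ : Finset (Fin n)).offDiag) (by
      intro κ _
      rw [Finset.mem_coe, Finset.mem_offDiag]
      exact ⟨mem_univ _, mem_univ _, fun h => hst (κ.injective h)⟩)
  rw [← Finset.card_univ, h2, Finset.sum_congr rfl h1, Finset.sum_const, Finset.offDiag_card,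
    Finset.card_univ, Fintype.card_fin, smul_eq_mul, Nat.mul_sub, mul_one]

/-- rotation of the two blocks -/
def LCYC_rot (l d : ℕ) : Equiv.Perm (Fin ((l + 1) + (d + 1))) :=
  (finSumFinEquiv.symm.trans ((finRotate (l + 1)).sumCongr (finRotate (d + 1)))).trans
    finSumFinEquiv

theorem LCYC_rot_left (l d : ℕ) (i : Fin (l + 1)) :
    LCYC_rot l d (Fin.castAdd (d + 1) i) = Fin.castAdd (d + 1) (i + 1) := by
  unfold LCYC_rot
  simp only [Equiv.trans_apply, finSumFinEquiv_symm_apply_castAdd, Equiv.sumCongr_apply,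
    Sum.map_inl, finSumFinEquiv_apply_left, finRotate_succ_apply]

theorem LCYC_rot_right (l d : ℕ) (i : Fin (d + 1)) :
    LCYC_rot l d (Fin.natAdd (l + 1) i) = Fin.natAdd (l + 1) (i + 1) := by
  unfold LCYC_rot
  simp only [Equiv.trans_apply, finSumFinEquiv_symm_apply_natAdd, Equiv.sumCongr_apply,
    Sum.map_inr, finSumFinEquiv_apply_right, finRotate_succ_apply]

/-- the number of even permutations in which `a` lies on a cycle of length `ℓ` and `b` lies on
another cycle, of length `d` -/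
theorem LCYC (n ℓ d : ℕ) (hℓ : 1 ≤ ℓ) (hd : 1 ≤ d) (h : ℓ + d + 2 ≤ n) (a b : Fin n)
    (hab : a ≠ b) :
    Fintype.card (Alt n) ≤ n * (n - 1) * Nat.card {g : Alt n //
      Function.minimalPeriod (g : Equiv.Perm (Fin n)) a = ℓ ∧
      Function.minimalPeriod (g : Equiv.Perm (Fin n)) b = d ∧
      ∀ i : ℕ, ((g : Equiv.Perm (Fin n)) ^ i) a ≠ b} := by
  classical
  obtain ⟨l, rfl⟩ : ∃ l, ℓ = l + 1 := ⟨ℓ - 1, by omega⟩
  obtain ⟨e, rfl⟩ : ∃ e, d = e + 1 := ⟨d - 1, by omega⟩
  obtain ⟨M, hM⟩ : ∃ M, M = Fintype.card (Tup ((l + 1) + (e + 1)) n) := ⟨_, rfl⟩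
  have hMpos : 0 < M := by
    rw [hM, Fintype.card_pos_iff]
    exact ⟨Fin.castLEEmb (by omega)⟩
  have hz : ∀ (κ : Tup ((l + 1) + (e + 1)) n) (g : Alt n),
      mv (g : Equiv.Perm (Fin n)) κ = (LCYC_rot l e).toEmbedding.trans κ →
      (∀ i : Fin (l + 1), (g : Equiv.Perm (Fin n)) (κ (Fin.castAdd (e + 1) i)) =
        κ (Fin.castAdd (e + 1) (i + 1))) ∧
      ∀ i : Fin (e + 1), (g : Equiv.Perm (Fin n)) (κ (Fin.natAdd (l + 1) i)) =
        κ (Fin.natAdd (l + 1) (i + 1)) := by
    intro κ g hg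
    constructor
    · intro i
      have h1 := DFunLike.congr_fun hg (Fin.castAdd (e + 1) i)
      rw [mv_apply, Function.Embedding.trans_apply, Equiv.toEmbedding_apply, LCYC_rot_left] at h1
      exact h1
    · intro i
      have h1 := DFunLike.congr_fun hg (Fin.natAdd (l + 1) i)
      rw [mv_apply, Function.Embedding.trans_apply, Equiv.toEmbedding_apply, LCYC_rot_right] at h1
      exact h1
  have hinjL : ∀ κ : Tup ((l + 1) + (e + 1)) n,
      Function.Injective fun i : Fin (l + 1) => κ (Fin.castAdd (e + 1) i) := fun κ i j hij =>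
    Fin.castAdd_injective _ _ (κ.injective hij)
  have hinjR : ∀ κ : Tup ((l + 1) + (e + 1)) n,
      Function.Injective fun i : Fin (e + 1) => κ (Fin.natAdd (l + 1) i) := fun κ i j hij =>
    Fin.natAdd_injective _ _ (κ.injective hij)
  -- the injection
  let F : (Σ κ : {κ : Tup ((l + 1) + (e + 1)) n // κ (Fin.castAdd (e + 1) 0) = a ∧
      κ (Fin.natAdd (l + 1) 0) = b}, {g : Alt n // mv (g : Equiv.Perm (Fin n)) κ.1 =
        (LCYC_rot l e).toEmbedding.trans κ.1}) →
      {g : Alt n // Function.minimalPeriod (g : Equiv.Perm (Fin n)) a = l + 1 ∧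
      Function.minimalPeriod (g : Equiv.Perm (Fin n)) b = e + 1 ∧
      ∀ i : ℕ, ((g : Equiv.Perm (Fin n)) ^ i) a ≠ b} := fun s =>
    ⟨s.2.1, by
      obtain ⟨h1, h2⟩ := hz s.1.1 s.2.1 s.2.2
      have h3 := cyc_period (s.2.1 : Equiv.Perm (Fin n)) _ (hinjL s.1.1) h1
      have h4 := cyc_period (s.2.1 : Equiv.Perm (Fin n)) _ (hinjR s.1.1) h2
      have h5 := cyc_iter (s.2.1 : Equiv.Perm (Fin n))
        (fun i : Fin (l + 1) => s.1.1 (Fin.castAdd (e + 1) i)) h1
      beta_reduce at h3 h4 h5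
      rw [s.1.2.1] at h3 h5
      rw [s.1.2.2] at h4
      refine ⟨h3, h4, fun i hi => ?_⟩
      rw [h5] at hi
      have h6 := congrArg Fin.val (s.1.1.injective (hi.trans s.1.2.2.symm))
      rw [Fin.val_castAdd, Fin.val_natAdd] at h6
      have := (Fin.ofNat (l + 1) i).2
      omega⟩
  have hF : Function.Injective F := by
    rintro ⟨⟨κ, hκ⟩, g, hg⟩ ⟨⟨κ', hκ'⟩, g', hg'⟩ hyy
    have h1 : g = g' := congrArg (fun s => (s.1 : Alt n)) hyy
    subst h1
    have h2 : κ = κ' := by
      obtain ⟨c1, c2⟩ := hz κ g hg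
      obtain ⟨c3, c4⟩ := hz κ' g hg'
      have d1 := cyc_iter (g : Equiv.Perm (Fin n))
        (fun i : Fin (l + 1) => κ (Fin.castAdd (e + 1) i)) c1
      have d2 := cyc_iter (g : Equiv.Perm (Fin n))
        (fun i : Fin (e + 1) => κ (Fin.natAdd (l + 1) i)) c2
      have d3 := cyc_iter (g : Equiv.Perm (Fin n))
        (fun i : Fin (l + 1) => κ' (Fin.castAdd (e + 1) i)) c3
      have d4 := cyc_iter (g : Equiv.Perm (Fin n))
        (fun i : Fin (e + 1) => κ' (Fin.natAdd (l + 1) i)) c4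
      beta_reduce at d1 d2 d3 d4
      rw [hκ.1] at d1
      rw [hκ.2] at d2
      rw [hκ'.1] at d3
      rw [hκ'.2] at d4
      ext s
      congr 1
      refine Fin.addCases (fun i => ?_) (fun i => ?_) s
      · have h3 := (d1 i.val).symm.trans (d3 i.val)
        have h4 : Fin.ofNat (l + 1) i.val = i := by
          apply Fin.ext
          exact Nat.mod_eq_of_lt i.2
        rw [h4] at h3
        exact h3
      · have h3 := (d2 i.val).symm.trans (d4 i.val)
        have h4 : Fin.ofNat (e + 1) i.val = i := by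
          apply Fin.ext
          exact Nat.mod_eq_of_lt i.2
        rw [h4] at h3
        exact h3
    subst h2
    rfl
  have h1 := Nat.card_le_card_of_injective F hF
  rw [Nat.card_sigma] at h1
  have h2 : ∀ κ : {κ : Tup ((l + 1) + (e + 1)) n // κ (Fin.castAdd (e + 1) 0) = a ∧
      κ (Fin.natAdd (l + 1) 0) = b},
      Nat.card {g : Alt n // mv (g : Equiv.Perm (Fin n)) κ.1 =
        (LCYC_rot l e).toEmbedding.trans κ.1} * M = Fintype.card (Alt n) := by
    intro κ
    rw [hM]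
    exact cyc_card (by omega) _ _
  have h3 := Nat.mul_le_mul_right M h1
  rw [Finset.sum_mul, Finset.sum_congr rfl fun κ _ => h2 κ, Finset.sum_const, smul_eq_mul,
      Finset.card_univ, Fintype.card_subtype] at h3
  have h4 := LCYC_rel (n := n) (s := Fin.castAdd (e + 1) (0 : Fin (l + 1)))
    (t := Fin.natAdd (l + 1) (0 : Fin (e + 1))) (by
      intro h'
      have h6 := congrArg Fin.val h'
      rw [Fin.val_castAdd, Fin.val_natAdd] at h6
      simp at h6) hab
  rw [← hM] at h4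
  apply Nat.le_of_mul_le_mul_right _ hMpos
  calc Fintype.card (Alt n) * M = n * (n - 1) * (#{κ : Tup ((l + 1) + (e + 1)) n |
        κ (Fin.castAdd (e + 1) 0) = a ∧ κ (Fin.natAdd (l + 1) 0) = b} *
          Fintype.card (Alt n)) := by
        rw [← h4]
        ring
    _ ≤ _ := Nat.mul_le_mul_left _ h3
    _ = _ := by ring

end RD
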