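import Pool.Agent.H513R2.RD.Defs

namespace RD
open Finset RC14

/-- the lazy walk operator of a family of permutations -/
noncomputable def lz {X : Type*} {k : ℕ} (σ : Fin k → Equiv.Perm X) (f : X → ℝ) (a : X) : ℝ :=
  (f a + (∑ i, (f (σ i a) + f ((σ i)⁻¹ a))) / (2 * k)) / 2

section

variable {X : Type*} [Fintype X]

lemma MIXA_shift (s : Equiv.Perm X) (f g : X → ℝ) :
    ∑ a, f a * g (s a) = ∑ a, g a * f (s⁻¹ a) := by
  rw [← Equiv.sum_comp s (fun a => g a * f (s⁻¹ a))]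
  apply sum_congr rfl
  intro a _
  simp [mul_comm]

lemma MIXA_shift' (s : Equiv.Perm X) (f g : X → ℝ) :
    ∑ a, f a * g (s⁻¹ a) = ∑ a, g a * f (s a) := by
  rw [MIXA_shift s⁻¹ f g, inv_inv]

lemma MIXA_inner {k : ℕ} (σ : Fin k → Equiv.Perm X) (f g : X → ℝ) :
    ∑ a, f a * lz σ g a = (∑ a, f a * g a +
      (∑ i, (∑ a, f a * g (σ i a) + ∑ a, f a * g ((σ i)⁻¹ a))) / (2 * k)) / 2 := by
  have h1 : ∀ a ∈ (univ : Finset X), f a * lz σ g a =
      f a * g a / 2 + (∑ i, (f a * g (σ i a) + f a * g ((σ i)⁻¹ a))) / (2 * k) / 2 := by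
    intro a _
    unfold lz
    have : ∑ i, (f a * g (σ i a) + f a * g ((σ i)⁻¹ a)) =
        f a * ∑ i, (g (σ i a) + g ((σ i)⁻¹ a)) := by
      rw [mul_sum]
      apply sum_congr rfl
      intro i _
      ring
    rw [this]
    ring
  rw [sum_congr rfl h1, sum_add_distrib, ← sum_div, ← sum_div, ← sum_div, sum_comm, add_div]
  congr 3
  apply sum_congr rfl
  intro i _
  rw [sum_add_distrib]

lemma MIXA_symm {k : ℕ} (σ : Fin k → Equiv.Perm X) (f g : X → ℝ) :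
    ∑ a, f a * lz σ g a = ∑ a, g a * lz σ f a := by
  rw [MIXA_inner, MIXA_inner]
  congr 2
  · exact sum_congr rfl fun a _ => mul_comm _ _
  · congr 1
    apply sum_congr rfl
    intro i _
    rw [MIXA_shift (σ i) f g, MIXA_shift' (σ i) f g, add_comm]

lemma MIXA_sum {k : ℕ} (hk : 1 ≤ k) (σ : Fin k → Equiv.Perm X) (f : X → ℝ) :
    ∑ a, lz σ f a = ∑ a, f a := by
  have hk0 : (0 : ℝ) < k := by exact_mod_cast hk
  have h1 := MIXA_inner σ (fun _ => 1) f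
  simp only [one_mul] at h1
  rw [h1]
  have h2 : ∀ i ∈ (univ : Finset (Fin k)), (∑ a, f (σ i a) + ∑ a, f ((σ i)⁻¹ a)) =
      2 * ∑ a, f a := by
    intro i _
    rw [Equiv.sum_comp (σ i) f, Equiv.sum_comp (σ i)⁻¹ f]
    ring
  rw [sum_congr rfl h2, sum_const, card_univ, Fintype.card_fin, nsmul_eq_mul]
  field_simp
  ring

lemma MIXA_psd {k : ℕ} (hk : 1 ≤ k) (σ : Fin k → Equiv.Perm X) (f : X → ℝ) :
    0 ≤ ∑ a, f a * lz σ f a := by
  have hk0 : (0 : ℝ) < k := by exact_mod_cast hk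
  rw [MIXA_inner]
  have h1 : ∀ s : Equiv.Perm X, -∑ a, f a * f a ≤ ∑ a, f a * f (s a) := by
    intro s
    have h2 : ∑ a, f (s a) * f (s a) = ∑ a, f a * f a :=
      Equiv.sum_comp s (fun a => f a * f a)
    have h3 : 0 ≤ ∑ a, (f a + f (s a)) ^ 2 := sum_nonneg fun _ _ => sq_nonneg _
    have h4 : ∑ a, (f a + f (s a)) ^ 2 =
        ∑ a, f a * f a + 2 * ∑ a, f a * f (s a) + ∑ a, f (s a) * f (s a) := by
      rw [mul_sum, ← sum_add_distrib, ← sum_add_distrib]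
      apply sum_congr rfl
      intro a _
      ring
    linarith
  have h2 : -(2 * k * ∑ a, f a * f a) ≤
      ∑ i, (∑ a, f a * f (σ i a) + ∑ a, f a * f ((σ i)⁻¹ a)) := by
    calc -(2 * k * ∑ a, f a * f a) = ∑ _i : Fin k, (-∑ a, f a * f a + -∑ a, f a * f a) := by
          rw [sum_const, card_univ, Fintype.card_fin, nsmul_eq_mul]; ring
      _ ≤ _ := sum_le_sum fun i _ => add_le_add (h1 (σ i)) (h1 (σ i)⁻¹)
  have h3 : -∑ a, f a * f a ≤
      (∑ i, (∑ a, f a * f (σ i a) + ∑ a, f a * f ((σ i)⁻¹ a))) / (2 * k) := by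
    rw [le_div_iff₀ (by positivity)]
    linarith
  linarith

omit [Fintype X] in
lemma MIXA_lin {k : ℕ} (σ : Fin k → Equiv.Perm X) (f g : X → ℝ) (t : ℝ) :
    lz σ (fun a => f a + t * g a) = fun a => lz σ f a + t * lz σ g a := by
  funext a
  unfold lz
  have : ∑ i, (f (σ i a) + t * g (σ i a) + (f ((σ i)⁻¹ a) + t * g ((σ i)⁻¹ a))) =
      ∑ i, (f (σ i a) + f ((σ i)⁻¹ a)) + t * ∑ i, (g (σ i a) + g ((σ i)⁻¹ a)) := by
    rw [mul_sum, ← sum_add_distrib]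
    apply sum_congr rfl
    intro i _
    ring
  rw [this]
  ring

lemma MIXA_cs {k : ℕ} (hk : 1 ≤ k) (σ : Fin k → Equiv.Perm X) (f g : X → ℝ) :
    (∑ a, f a * lz σ g a) ^ 2 ≤ (∑ a, f a * lz σ f a) * ∑ a, g a * lz σ g a := by
  have h1 : ∀ t : ℝ, 0 ≤ (∑ a, g a * lz σ g a) * (t * t) + (2 * ∑ a, f a * lz σ g a) * t +
      ∑ a, f a * lz σ f a := by
    intro t
    have h2 := MIXA_psd hk σ (fun a => f a + t * g a)
    rw [MIXA_lin] at h2
    refine h2.trans (le_of_eq ?_)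
    have h3 : ∑ a, (f a + t * g a) * (lz σ f a + t * lz σ g a) =
        (∑ a, g a * lz σ g a) * (t * t) + (∑ a, f a * lz σ g a) * t +
        (∑ a, g a * lz σ f a) * t + ∑ a, f a * lz σ f a := by
      rw [sum_mul, sum_mul, sum_mul, ← sum_add_distrib, ← sum_add_distrib, ← sum_add_distrib]
      apply sum_congr rfl
      intro a _
      ring
    rw [h3, MIXA_symm σ g f]
    ring
  have h4 := discrim_le_zero h1
  unfold discrim at h4
  nlinarith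

end

/-- the lazy walk contracts the mean zero functions -/
theorem MIXA {X : Type*} [Fintype X] {k : ℕ} (hk : 1 ≤ k) (σ : Fin k → Equiv.Perm X) (ε : ℝ)
    (hε : 0 < ε) (hε1 : ε ≤ 1)
    (hgap : ∀ f : X → ℝ, ∑ a, f a = 0 →
      ∑ a, f a * ((∑ i, (f (σ i a) + f ((σ i)⁻¹ a))) / (2 * k)) ≤ (1 - ε) * ∑ a, f a ^ 2)
    (f : X → ℝ) (hf : ∑ a, f a = 0) :
    ∑ a, lz σ f a = 0 ∧ ∑ a, lz σ f a ^ 2 ≤ (1 - ε / 2) ^ 2 * ∑ a, f a ^ 2 := by
  have h0 : ∑ a, lz σ f a = 0 := by rw [MIXA_sum hk, hf]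
  refine ⟨h0, ?_⟩
  have hB : ∀ g : X → ℝ, ∑ a, g a = 0 → ∑ a, g a * lz σ g a ≤ (1 - ε / 2) * ∑ a, g a ^ 2 := by
    intro g hg
    have h1 := hgap g hg
    have h2 : ∑ a, g a * lz σ g a =
        (∑ a, g a ^ 2 + ∑ a, g a * ((∑ i, (g (σ i a) + g ((σ i)⁻¹ a))) / (2 * k))) / 2 := by
      rw [← sum_add_distrib, sum_div]
      apply sum_congr rfl
      intro a _
      unfold lz
      ring
    rw [h2]
    linarith
  have hN0 : 0 ≤ ∑ a, lz σ f a ^ 2 := sum_nonneg fun _ _ => sq_nonneg _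
  have hF0 : 0 ≤ ∑ a, f a ^ 2 := sum_nonneg fun _ _ => sq_nonneg _
  have h1 := MIXA_cs hk σ f (lz σ f)
  have h2 : ∑ a, f a * lz σ (lz σ f) a = ∑ a, lz σ f a ^ 2 := by
    rw [MIXA_symm]
    exact sum_congr rfl fun a _ => by ring
  rw [h2] at h1
  have h3 := hB f hf
  have h4 := hB (lz σ f) h0
  have hc : 0 ≤ 1 - ε / 2 := by linarith
  have h5 : (∑ a, f a * lz σ f a) * ∑ a, lz σ f a * lz σ (lz σ f) a ≤
      ((1 - ε / 2) * ∑ a, f a ^ 2) * ((1 - ε / 2) * ∑ a, lz σ f a ^ 2) :=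
    mul_le_mul h3 h4 (MIXA_psd hk σ _) (by positivity)
  rcases hN0.eq_or_lt with hN | hN
  · rw [← hN]; positivity
  · have h6 : (∑ a, lz σ f a ^ 2) * (∑ a, lz σ f a ^ 2) ≤
        ((1 - ε / 2) ^ 2 * ∑ a, f a ^ 2) * ∑ a, lz σ f a ^ 2 := by
      calc _ = (∑ a, lz σ f a ^ 2) ^ 2 := by ring
        _ ≤ _ := h1.trans h5
        _ = _ := by ring
    exact le_of_mul_le_mul_right h6 hN

end RD
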