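import Pool.Agent.H513R2.RD.Base

namespace RD
open Finset RC14

noncomputable section

/-- extension of a tuple by one point -/
def STEP_ext {n r : ℕ} (a : Tup r n) (u : Fin n) (hu : ∀ i, a i ≠ u) : Tup (r + 1) n :=
  ⟨Fin.cons u a, Fin.cons_injective_iff.2 ⟨by rintro ⟨i, hi⟩; exact hu i hi, a.injective⟩⟩

theorem STEP_mv_ext {n r : ℕ} (g : Equiv.Perm (Fin n)) (a : Tup r n) (u v : Fin n)
    (hu : ∀ i, a i ≠ u) (hv : ∀ i, a i ≠ v) (ha : mv g a = a) (huv : g u = v) :
    mv g (STEP_ext a u hu) = STEP_ext a v hv := by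
  ext i
  refine Fin.cases ?_ (fun j => ?_) i
  · show ((g (Fin.cons (α := fun _ => Fin n) u a 0) : Fin n) : ℕ) =
      ((Fin.cons (α := fun _ => Fin n) v a 0 : Fin n) : ℕ)
    rw [Fin.cons_zero, Fin.cons_zero, huv]
  · show ((g (Fin.cons (α := fun _ => Fin n) u a j.succ) : Fin n) : ℕ) =
      ((Fin.cons (α := fun _ => Fin n) v a j.succ : Fin n) : ℕ)
    rw [Fin.cons_succ, Fin.cons_succ]
    have := DFunLike.congr_fun ha j
    exact congrArg Fin.val this

theorem STEP_pts {n m N r : ℕ} (h : Fin N → Alt n) (hN : 0 < N)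
    (hmix : ∀ r ≤ m, ∀ a b : Tup r n,
      (N : ℝ) ≤ 2 * Fintype.card (Tup r n) * #{i | mv (h i : Equiv.Perm (Fin n)) a = b} ∧
      (Fintype.card (Tup r n) : ℝ) * #{i | mv (h i : Equiv.Perm (Fin n)) a = b} ≤ 2 * N)
    (hr : r + 1 ≤ m) (hrn : r < n) (a : Tup r n) (H : Finset (Fin N))
    (hH : ∀ i, i ∈ H ↔ mv (h i : Equiv.Perm (Fin n)) a = a) :
    0 < #H ∧ ∀ u v, (∀ i, a i ≠ u) →
      ((n : ℝ) - r) * #{i ∈ H | (h i : Equiv.Perm (Fin n)) u = v} ≤ 4 * #H := by
  have hHe : #{i | mv (h i : Equiv.Perm (Fin n)) a = a} = #H := by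
    congr 1
    ext i
    rw [hH, mem_filter]
    simp
  have h1 := (hmix r (by omega) a a).1
  rw [hHe] at h1
  have hcr : Fintype.card (Tup r n) = n.descFactorial r := by
    rw [Fintype.card_embedding_eq, Fintype.card_fin, Fintype.card_fin]
  have hcr1 : Fintype.card (Tup (r + 1) n) = (n - r) * n.descFactorial r := by
    rw [Fintype.card_embedding_eq, Fintype.card_fin, Fintype.card_fin, Nat.descFactorial_succ]
  have hD : 0 < n.descFactorial r := Nat.descFactorial_pos.2 (by omega)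
  have hDR : (0 : ℝ) < n.descFactorial r := by exact_mod_cast hD
  have hNR : (0 : ℝ) < N := by exact_mod_cast hN
  rw [hcr] at h1
  refine ⟨?_, ?_⟩
  · by_contra hcon
    have h0 : #H = 0 := by omega
    rw [h0] at h1
    simp at h1
    omega
  · intro u v hu
    by_cases hv : ∀ i, a i ≠ v
    · have h2 := (hmix (r + 1) hr (STEP_ext a u hu) (STEP_ext a v hv)).2
      have h3 : #{i ∈ H | (h i : Equiv.Perm (Fin n)) u = v} ≤
          #{i | mv (h i : Equiv.Perm (Fin n)) (STEP_ext a u hu) = STEP_ext a v hv} := by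
        apply card_le_card
        intro i hi
        rw [mem_filter] at hi
        rw [mem_filter]
        exact ⟨mem_univ _, STEP_mv_ext _ a u v hu hv ((hH i).1 hi.1) hi.2⟩
      rw [hcr1] at h2
      have hsub : ((n - r : ℕ) : ℝ) = (n : ℝ) - r := by
        rw [Nat.cast_sub hrn.le]
      push_cast at h2
      rw [hsub] at h2
      have hnr : (0 : ℝ) < (n : ℝ) - r := by
        have : (r : ℝ) < n := by exact_mod_cast hrn
        linarith
      have h3' : (#{i ∈ H | (h i : Equiv.Perm (Fin n)) u = v} : ℝ) ≤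
          #{i | mv (h i : Equiv.Perm (Fin n)) (STEP_ext a u hu) = STEP_ext a v hv} := by
        exact_mod_cast h3
      have h4 : ((n : ℝ) - r) * #{i ∈ H | (h i : Equiv.Perm (Fin n)) u = v} * n.descFactorial r ≤
          (4 * #H) * n.descFactorial r := by
        calc ((n : ℝ) - r) * #{i ∈ H | (h i : Equiv.Perm (Fin n)) u = v} * n.descFactorial r
            = ((n : ℝ) - r) * n.descFactorial r * #{i ∈ H | (h i : Equiv.Perm (Fin n)) u = v} := by
              ring
          _ ≤ ((n : ℝ) - r) * n.descFactorial r *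
              #{i | mv (h i : Equiv.Perm (Fin n)) (STEP_ext a u hu) = STEP_ext a v hv} := by
              gcongr
          _ ≤ 2 * N := h2
          _ ≤ 2 * (2 * n.descFactorial r * #H) := by linarith
          _ = (4 * #H) * n.descFactorial r := by ring
      exact le_of_mul_le_mul_right h4 hDR
    · push Not at hv
      obtain ⟨j, hj⟩ := hv
      have h0 : #{i ∈ H | (h i : Equiv.Perm (Fin n)) u = v} = 0 := by
        rw [card_eq_zero, filter_eq_empty_iff]
        intro i hi hiu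
        have h5 := DFunLike.congr_fun ((hH i).1 hi) j
        rw [mv_apply, hj] at h5
        have h6 : u = v := (h i : Equiv.Perm (Fin n)).injective (hiu.trans h5.symm)
        exact hu j (hj.trans h6.symm)
      rw [h0]
      simp

theorem STEP_avg {n N r : ℕ} (h : Fin N → Alt n) (a : Tup r n) (H : Finset (Fin N))
    (hp : ∀ u v, (∀ i, a i ≠ u) →
      ((n : ℝ) - r) * #{i ∈ H | (h i : Equiv.Perm (Fin n)) u = v} ≤ 4 * #H)
    (A B : Finset (Fin n)) (hA : ∀ u ∈ A, ∀ i, a i ≠ u) :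
    ((n : ℝ) - r) * ∑ i ∈ H, (#{u ∈ A | (h i : Equiv.Perm (Fin n)) u ∈ B} : ℝ) ≤
      4 * #H * #A * #B := by
  have h1 : ∑ i ∈ H, (#{u ∈ A | (h i : Equiv.Perm (Fin n)) u ∈ B} : ℝ) =
      ∑ u ∈ A, ∑ v ∈ B, (#{i ∈ H | (h i : Equiv.Perm (Fin n)) u = v} : ℝ) := by
    have h2 : ∀ i ∈ H, (#{u ∈ A | (h i : Equiv.Perm (Fin n)) u ∈ B} : ℝ) =
        ∑ u ∈ A, ∑ v ∈ B, if (h i : Equiv.Perm (Fin n)) u = v then (1 : ℝ) else 0 := by
      intro i _
      rw [card_filter]
      push_cast
      refine sum_congr rfl fun u _ => ?_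
      rw [sum_ite_eq]
    rw [sum_congr rfl h2, sum_comm]
    refine sum_congr rfl fun u _ => ?_
    rw [sum_comm]
    refine sum_congr rfl fun v _ => ?_
    rw [card_filter]
    push_cast
    rfl
  rw [h1, mul_sum]
  calc ∑ u ∈ A, ((n : ℝ) - r) * ∑ v ∈ B, (#{i ∈ H | (h i : Equiv.Perm (Fin n)) u = v} : ℝ)
      ≤ ∑ _u ∈ A, 4 * (#H : ℝ) * #B := by
        refine sum_le_sum fun u hu => ?_
        rw [mul_sum]
        calc ∑ v ∈ B, ((n : ℝ) - r) * (#{i ∈ H | (h i : Equiv.Perm (Fin n)) u = v} : ℝ)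
            ≤ ∑ _v ∈ B, 4 * (#H : ℝ) := sum_le_sum fun v _ => hp u v (hA u hu)
          _ = 4 * (#H : ℝ) * #B := by rw [sum_const, nsmul_eq_mul]; ring
    _ = 4 * #H * #A * #B := by rw [sum_const, nsmul_eq_mul]; ring

theorem STEP_real {n r s c H A B U1 U2 : ℝ} (hn : n ≤ 2 * (n - r)) (hs : 0 ≤ s) (hc : 0 ≤ c)
    (hH : 0 ≤ H) (hU1 : 0 ≤ U1) (hU2 : 0 ≤ U2) (hA : A ≤ s) (hB : B ≤ 2 * c)
    (h1 : (n - r) * U1 ≤ 4 * H * A * s) (h2 : (n - r) * U2 ≤ 4 * H * B * s) :
    n * (2 * c * U1 + s * U2) ≤ H * (32 * c * s ^ 2) := by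
  have hT1 : n * U1 ≤ 8 * H * s * s := by
    calc n * U1 ≤ (2 * (n - r)) * U1 := mul_le_mul_of_nonneg_right hn hU1
      _ = 2 * ((n - r) * U1) := by ring
      _ ≤ 2 * (4 * H * A * s) := by linarith
      _ ≤ 2 * (4 * H * s * s) := by gcongr
      _ = 8 * H * s * s := by ring
  have hT2 : n * U2 ≤ 8 * H * (2 * c) * s := by
    calc n * U2 ≤ (2 * (n - r)) * U2 := mul_le_mul_of_nonneg_right hn hU2
      _ = 2 * ((n - r) * U2) := by ring
      _ ≤ 2 * (4 * H * B * s) := by linarith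
      _ ≤ 2 * (4 * H * (2 * c) * s) := by gcongr
      _ = 8 * H * (2 * c) * s := by ring
  have e1 := mul_le_mul_of_nonneg_left hT1 (mul_nonneg zero_le_two hc)
  have e2 := mul_le_mul_of_nonneg_left hT2 hs
  calc n * (2 * c * U1 + s * U2) = 2 * c * (n * U1) + s * (n * U2) := by ring
    _ ≤ 2 * c * (8 * H * s * s) + s * (8 * H * (2 * c) * s) := add_le_add e1 e2
    _ = H * (32 * c * s ^ 2) := by ring

end

/-- one commutator step -/
theorem STEP (n k m ℓ c L : ℕ) (x : Fin k → Alt n) (hM : Mixed x m ℓ) (g : Alt n)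
    (hg : WL x L g) (hc : 1 ≤ c) (hcm : 2 * c + 1 ≤ m) (h1 : 6 * c ≤ sz g)
    (h2 : 192 * sz g ≤ n) :
    ∃ g' : Alt n, WL x (4 * L + 4 * ℓ) g' ∧ c ≤ sz g' ∧
      n * sz g' ≤ 6 * c * n + 48 * sz g ^ 2 := by
  classical
  obtain ⟨N, h, hN, hWL, hmix⟩ := hM
  obtain ⟨s, hs⟩ : ∃ s, s = sz g := ⟨_, rfl⟩
  rw [← hs] at h1 h2 ⊢
  set γ : Equiv.Perm (Fin n) := (g : Equiv.Perm (Fin n)) with hγ
  have hsc : γ.support.card = s := by rw [hs]; rfl
  obtain ⟨P, hP, hPc, hPi⟩ := IND γ (2 * c) (by rw [hsc]; omega)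
  set a : Tup (2 * c) n := (P.orderEmbOfFin hPc).toEmbedding with ha
  have hrange : ∀ v, (∃ i, a i = v) ↔ v ∈ P := by
    intro v
    have := Finset.range_orderEmbOfFin P hPc
    constructor
    · rintro ⟨i, rfl⟩
      exact Finset.orderEmbOfFin_mem P hPc i
    · intro hv
      have hv' : v ∈ Set.range (P.orderEmbOfFin hPc) := by rw [this]; exact hv
      obtain ⟨i, hi⟩ := hv'
      exact ⟨i, hi⟩
  set H : Finset (Fin N) := univ.filter fun i => mv (h i : Equiv.Perm (Fin n)) a = a with hHdef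
  have hH : ∀ i, i ∈ H ↔ mv (h i : Equiv.Perm (Fin n)) a = a := by
    intro i
    rw [hHdef, mem_filter]
    simp
  obtain ⟨hHpos, hp⟩ := STEP_pts h hN hmix hcm (by omega) a H hH
  have hS1 := STEP_avg h a H hp (γ.support \ P) γ.support (by
    intro u hu i hi
    exact (mem_sdiff.1 hu).2 ((hrange u).1 ⟨i, hi⟩))
  have hS2 := STEP_avg h a H hp (P.image γ) γ.support (by
    intro u hu i hi
    obtain ⟨p, hpP, rfl⟩ := mem_image.1 hu
    exact hPi p hpP ((hrange _).1 ⟨i, hi⟩))
  -- choose a good index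
  obtain ⟨i, hiH, hZ, hZ1⟩ : ∃ i ∈ H,
      n * #{u ∈ γ.support \ P | (h i : Equiv.Perm (Fin n)) u ∈ γ.support} ≤ 16 * s ^ 2 ∧
      n * #{u ∈ P.image γ | (h i : Equiv.Perm (Fin n)) u ∈ γ.support} ≤ 32 * c * s := by
    by_contra hcon
    push Not at hcon
    have hw : ∀ i ∈ H, (32 * c * s ^ 2 : ℝ) < n * (2 * c *
        (#{u ∈ γ.support \ P | (h i : Equiv.Perm (Fin n)) u ∈ γ.support} : ℝ) +
        s * (#{u ∈ P.image γ | (h i : Equiv.Perm (Fin n)) u ∈ γ.support} : ℝ)) := by
      intro i hi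
      have hcR : (0 : ℝ) < c := by exact_mod_cast hc
      have hsR : (0 : ℝ) < s := by
        have : 0 < s := by omega
        exact_mod_cast this
      by_cases hZ : n * #{u ∈ γ.support \ P | (h i : Equiv.Perm (Fin n)) u ∈ γ.support} ≤
          16 * s ^ 2
      · have h3 := hcon i hi hZ
        have h3' : (32 * c * s : ℝ) <
            n * (#{u ∈ P.image γ | (h i : Equiv.Perm (Fin n)) u ∈ γ.support} : ℝ) := by
          exact_mod_cast h3
        have h4 := mul_lt_mul_of_pos_right h3' hsR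
        have h5 : (0 : ℝ) ≤ n * (2 * c *
          (#{u ∈ γ.support \ P | (h i : Equiv.Perm (Fin n)) u ∈ γ.support} : ℝ)) := by positivity
        nlinarith
      · push Not at hZ
        have h3' : (16 * s ^ 2 : ℝ) <
            n * (#{u ∈ γ.support \ P | (h i : Equiv.Perm (Fin n)) u ∈ γ.support} : ℝ) := by
          exact_mod_cast hZ
        have h4 := mul_lt_mul_of_pos_right h3' hcR
        have h5 : (0 : ℝ) ≤ n * (s *
          (#{u ∈ P.image γ | (h i : Equiv.Perm (Fin n)) u ∈ γ.support} : ℝ)) := by positivity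
        nlinarith
    have hsum := Finset.sum_lt_sum_of_nonempty (card_pos.1 hHpos) hw
    rw [sum_const, nsmul_eq_mul, ← mul_sum, sum_add_distrib, ← mul_sum, ← mul_sum] at hsum
    have hA1 : (#(γ.support \ P) : ℝ) ≤ s := by
      have : #(γ.support \ P) ≤ s := by
        rw [← hsc]; exact card_le_card sdiff_subset
      exact_mod_cast this
    have hA2 : (#(P.image γ) : ℝ) ≤ 2 * c := by
      have : #(P.image γ) ≤ 2 * c := by
        rw [← hPc]; exact card_image_le
      exact_mod_cast this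
    have hB : (#γ.support : ℝ) = s := by exact_mod_cast hsc
    rw [hB] at hS1 hS2
    set U1 : ℝ := ∑ i ∈ H, (#{u ∈ γ.support \ P | (h i : Equiv.Perm (Fin n)) u ∈ γ.support} : ℝ)
      with hU1
    set U2 : ℝ := ∑ i ∈ H, (#{u ∈ P.image γ | (h i : Equiv.Perm (Fin n)) u ∈ γ.support} : ℝ)
      with hU2
    have hU10 : 0 ≤ U1 := sum_nonneg fun _ _ => by positivity
    have hU20 : 0 ≤ U2 := sum_nonneg fun _ _ => by positivity
    have hn : (n : ℝ) ≤ 2 * ((n : ℝ) - (2 * c : ℕ)) := by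
      have : 4 * c ≤ n := by omega
      have h' : (4 * c : ℝ) ≤ n := by exact_mod_cast this
      push_cast
      linarith
    have hT3 := STEP_real hn (Nat.cast_nonneg s) (Nat.cast_nonneg c) (Nat.cast_nonneg #H)
      hU10 hU20 hA1 hA2 hS1 hS2
    linarith
  set η : Equiv.Perm (Fin n) := (h i : Equiv.Perm (Fin n)) with hη
  have hfix : ∀ p ∈ P, η p = p := by
    intro p hpP
    obtain ⟨j, hj⟩ := (hrange p).2 hpP
    have := DFunLike.congr_fun ((hH i).1 hiH) j
    rw [mv_apply, hj] at this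
    exact this
  set ξ : Equiv.Perm (Fin n) := η * γ * η⁻¹ with hξ
  have hcoe : ((cmt g (h i) : Alt n) : Equiv.Perm (Fin n)) = γ⁻¹ * ξ⁻¹ * γ * ξ := by
    rw [hξ, hγ, hη]
    rfl
  -- the overlap
  set C : Finset (Fin n) := (γ.support.filter fun u => η u ∈ γ.support).image η with hC
  have hCmem : ∀ v, γ v ≠ v → ξ v ≠ v → v ∈ C := by
    intro v hv hv'
    rw [hC, mem_image]
    refine ⟨η⁻¹ v, ?_, by simp⟩
    rw [mem_filter]
    constructor
    · rw [Equiv.Perm.mem_support]
      intro hcon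
      apply hv'
      simp only [hξ, Equiv.Perm.mul_apply]
      rw [hcon]
      simp
    · simpa using hv
  have hCcard : #C ≤ 2 * c + #{u ∈ γ.support \ P | η u ∈ γ.support} := by
    calc #C ≤ #(γ.support.filter fun u => η u ∈ γ.support) := card_image_le
      _ ≤ #(P ∪ {u ∈ γ.support \ P | η u ∈ γ.support}) := by
          apply card_le_card
          intro u hu
          rw [mem_filter] at hu
          by_cases huP : u ∈ P
          · exact mem_union_left _ huP
          · exact mem_union_right _ (mem_filter.2 ⟨mem_sdiff.2 ⟨hu.1, huP⟩, hu.2⟩)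
      _ ≤ #P + #{u ∈ γ.support \ P | η u ∈ γ.support} := card_union_le _ _
      _ = _ := by rw [hPc]
  have hup : sz (cmt g (h i)) ≤ 3 * #C := by
    unfold sz
    rw [hcoe]
    calc #(γ⁻¹ * ξ⁻¹ * γ * ξ).support ≤ #(C ∪ C.image (γ⁻¹ : Equiv.Perm (Fin n)) ∪ C.image (ξ⁻¹ : Equiv.Perm (Fin n))) := by
          apply card_le_card
          intro v hv
          rw [Equiv.Perm.mem_support] at hv
          rcases cmt_support γ ξ v hv with h3 | h3 | h3
          · exact mem_union_left _ (mem_union_left _ (hCmem v h3.1 h3.2))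
          · refine mem_union_left _ (mem_union_right _ (mem_image.2 ⟨γ v, hCmem _ h3.1 h3.2, ?_⟩))
            simp
          · refine mem_union_right _ (mem_image.2 ⟨ξ v, hCmem _ h3.1 h3.2, ?_⟩)
            simp
      _ ≤ #C + #(C.image (γ⁻¹ : Equiv.Perm (Fin n))) + #(C.image (ξ⁻¹ : Equiv.Perm (Fin n))) :=
          (card_union_le _ _).trans (Nat.add_le_add_right (card_union_le _ _) _)
      _ ≤ 3 * #C := by
          have e1 := card_image_le (s := C) (f := (γ⁻¹ : Equiv.Perm (Fin n)))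
          have e2 := card_image_le (s := C) (f := (ξ⁻¹ : Equiv.Perm (Fin n)))
          omega
  have hlow : 2 * c ≤ sz (cmt g (h i)) + #{u ∈ P.image γ | η u ∈ γ.support} := by
    unfold sz
    rw [hcoe]
    have hsub : P ⊆ (γ⁻¹ * ξ⁻¹ * γ * ξ).support ∪ (P.filter fun p => η (γ p) ∈ γ.support) := by
      intro p hpP
      by_cases hq : η (γ p) ∈ γ.support
      · exact mem_union_right _ (mem_filter.2 ⟨hpP, hq⟩)
      · refine mem_union_left _ ?_
        rw [Equiv.Perm.mem_support]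
        have hηp : η⁻¹ p = p := by
          rw [Equiv.Perm.inv_eq_iff_eq]
          exact (hfix p hpP).symm
        have hξp : ξ p = η (γ p) := by
          simp only [hξ, Equiv.Perm.mul_apply]
          rw [hηp]
        have hγq : γ (η (γ p)) = η (γ p) := by
          rw [Equiv.Perm.notMem_support] at hq
          exact hq
        have hξq : ξ⁻¹ (η (γ p)) = p := by
          rw [Equiv.Perm.inv_eq_iff_eq]
          exact hξp.symm
        simp only [Equiv.Perm.mul_apply]
        rw [hξp, hγq, hξq]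
        intro hcon
        rw [Equiv.Perm.inv_eq_iff_eq] at hcon
        exact (Equiv.Perm.mem_support.1 (hP hpP)) hcon.symm
    have h3 : #(P.filter fun p => η (γ p) ∈ γ.support) =
        #{u ∈ P.image γ | η u ∈ γ.support} := by
      rw [filter_image, card_image_of_injective _ γ.injective]
    calc 2 * c = #P := hPc.symm
      _ ≤ _ := card_le_card hsub
      _ ≤ _ := card_union_le _ _
      _ = _ := by rw [h3]
  refine ⟨cmt g (h i), hg.cmt (hWL i), ?_, ?_⟩
  · -- lower bound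
    have h3 : #{u ∈ P.image γ | η u ∈ γ.support} ≤ c := by
      by_contra hcon
      push Not at hcon
      have hn0 : 0 < n := by omega
      have h4 : n * (c + 1) ≤ 32 * c * s := le_trans (Nat.mul_le_mul_left n hcon) hZ1
      have h5 : 32 * c * s * 6 ≤ c * n := by nlinarith
      nlinarith
    omega
  · calc n * sz (cmt g (h i)) ≤ n * (3 * #C) := Nat.mul_le_mul_left n hup
      _ ≤ n * (3 * (2 * c + #{u ∈ γ.support \ P | η u ∈ γ.support})) := by
          exact Nat.mul_le_mul_left n (Nat.mul_le_mul_left 3 hCcard)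
      _ = 6 * c * n + 3 * (n * #{u ∈ γ.support \ P | η u ∈ γ.support}) := by ring
      _ ≤ 6 * c * n + 3 * (16 * s ^ 2) := Nat.add_le_add_left (Nat.mul_le_mul_left 3 hZ) _
      _ = 6 * c * n + 48 * s ^ 2 := by ring

end RD
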